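import Pool.Agent.W2helper95.KC.Fin
import Pool.Agent.W2helper95.TS.Alt

/-!
# The number of the alternations of a threshold circuit
-/

set_option autoImplicit false

open Finset

namespace Pool.Agent.W2helper95.KC

open Pool.Agent.W2helper95.TS
open Pool.Agent.W2helper95.ET (prs mem_prs)

variable {I : Type}

/-- Along each increasing chain `x 0 ≤ x 1 ≤ ... ≤ x k` of inputs there are at most `D` steps at
which some signal which is used with a negative weight changes its value. -/
def Alternates (C : Net I) (D : ℕ) : Prop :=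
  ∀ (k : ℕ) (x : ℕ → I → Bool), (∀ j e, x j e = true → x (j + 1) e = true) →
    {j : ℕ | j < k ∧ ∃ a, C.UsedNeg a ∧ C.val (x j) a ≠ C.val (x (j + 1)) a}.ncard ≤ D

/-- The graph with the edge flags `x` has a clique with `k` vertices. -/
def HasClique {V : Type} (k : ℕ) (x : Sym2 V → Bool) : Prop :=
  ∃ K : Finset V, K.card = k ∧ ∀ u ∈ K, ∀ v ∈ K, u ≠ v → x s(u, v) = true

theorem hasCl_iff {V : Type} [DecidableEq V] {k : ℕ} {x : Sym2 V → Bool} :
    HasCl k x ↔ HasClique k x := by
  constructor
  · rintro ⟨K, hK, h⟩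
    exact ⟨K, hK, fun u hu v hv huv => h _ (mem_prs.2 ⟨hu, hv, huv⟩)⟩
  · rintro ⟨K, hK, h⟩
    refine ⟨K, hK, fun p => ?_⟩
    induction p using Sym2.ind with
    | _ u v =>
      intro hp
      obtain ⟨h1, h2, h3⟩ := mem_prs.1 hp
      exact h u h1 v h2 h3

theorem Alternates.altN {C : Net I} {D : ℕ} (h : Alternates C D) : AltN C D := by
  classical
  intro k x hx
  refine le_trans ?_ (h k x hx)
  rw [← Set.ncard_coe_finset]
  apply Set.ncard_le_ncard
  · intro j hj
    rw [Finset.mem_coe, Finset.mem_filter, Finset.mem_range] at hj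
    obtain ⟨hjk, a, ha, hne⟩ := hj
    exact ⟨hjk, a, ((Net.mem_negs _).1 ha).1, hne⟩
  · exact (Set.finite_lt_nat k).subset fun j hj => hj.1

/-- the size of the input along an increasing chain -/
theorem chain_card [Fintype I] {x : ℕ → I → Bool}
    (hx : ∀ j e, x j e = true → x (j + 1) e = true) (k : ℕ) :
    {j : ℕ | j < k ∧ x j ≠ x (j + 1)}.ncard ≤ (univ.filter fun e => x k e = true).card := by
  classical
  induction k with
  | zero => simp
  | succ k ih =>
    have hsub : (univ.filter fun e => x k e = true) ⊆ univ.filter fun e => x (k + 1) e = true := by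
      intro e he
      rw [Finset.mem_filter] at he ⊢
      exact ⟨mem_univ _, hx k e he.2⟩
    by_cases hk : x k = x (k + 1)
    · have h1 : {j : ℕ | j < k + 1 ∧ x j ≠ x (j + 1)} = {j : ℕ | j < k ∧ x j ≠ x (j + 1)} := by
        ext j
        simp only [Set.mem_setOf_eq]
        constructor
        · rintro ⟨h1, h2⟩
          rcases Nat.lt_succ_iff_lt_or_eq.1 h1 with h3 | h3
          · exact ⟨h3, h2⟩
          · rw [h3] at h2; exact absurd hk h2
        · rintro ⟨h1, h2⟩
          exact ⟨by omega, h2⟩
      rw [h1]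
      exact ih.trans (Finset.card_le_card hsub)
    · have h1 : {j : ℕ | j < k + 1 ∧ x j ≠ x (j + 1)} ⊆
          insert k {j : ℕ | j < k ∧ x j ≠ x (j + 1)} := by
        rintro j ⟨h1, h2⟩
        rcases Nat.lt_succ_iff_lt_or_eq.1 h1 with h3 | h3
        · exact Or.inr ⟨h3, h2⟩
        · exact Or.inl h3
      have hfin : {j : ℕ | j < k ∧ x j ≠ x (j + 1)}.Finite :=
        (Set.finite_lt_nat k).subset fun j hj => hj.1
      have h2 : (univ.filter fun e => x k e = true).card <
          (univ.filter fun e => x (k + 1) e = true).card := by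
        apply Finset.card_lt_card
        refine ⟨hsub, fun hcon => hk ?_⟩
        funext e
        rw [Bool.eq_iff_iff]
        constructor
        · exact hx k e
        · intro he
          have := hcon (Finset.mem_filter.2 ⟨mem_univ e, he⟩)
          exact (Finset.mem_filter.1 this).2
      calc _ ≤ (insert k {j : ℕ | j < k ∧ x j ≠ x (j + 1)}).ncard :=
            Set.ncard_le_ncard h1 (hfin.insert k)
        _ ≤ _ := Set.ncard_insert_le _ _
        _ ≤ _ := by omega

/-- No circuit has more alternations than inputs. -/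
theorem alternates_card [Fintype I] (C : Net I) : Alternates C (Fintype.card I) := by
  classical
  intro k x hx
  calc _ ≤ {j : ℕ | j < k ∧ x j ≠ x (j + 1)}.ncard := by
        apply Set.ncard_le_ncard
        · rintro j ⟨hj, a, -, hne⟩
          exact ⟨hj, fun h => hne (by rw [h])⟩
        · exact (Set.finite_lt_nat k).subset fun j hj => hj.1
    _ ≤ _ := chain_card hx k
    _ ≤ _ := Finset.card_le_univ _

/-- At most `t` signals are used with a negative weight. -/
theorem alternates_two_pow (C : Net I) {t : ℕ} (h : {a : Fin C.s | C.UsedNeg a}.ncard ≤ t) :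
    Alternates C (2 ^ t - 1) := by
  classical
  intro k x hx
  have hneg : C.negs.card ≤ t := by
    refine le_trans ?_ h
    rw [← Set.ncard_coe_finset]
    apply Set.ncard_le_ncard _ (Set.toFinite _)
    intro a ha
    exact ((Net.mem_negs _).1 (Finset.mem_coe.1 ha)).1
  refine le_trans ?_ (altN_two_pow C hneg k x hx)
  rw [← Set.ncard_coe_finset]
  apply Set.ncard_le_ncard _ (Finset.finite_toSet _)
  rintro j ⟨hjk, a, ha, hne⟩
  rw [Finset.mem_coe, Finset.mem_filter, Finset.mem_range]
  refine ⟨hjk, a, (Net.mem_negs _).2 ⟨ha, fun c hc => hne ?_⟩, hne⟩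
  rw [C.val_const hc, C.val_const hc]

/-- At most `t` signals are used with a negative weight, and they are monotone or antitone. -/
theorem alternates_mono (C : Net I) {t : ℕ} (h : {a : Fin C.s | C.UsedNeg a}.ncard ≤ t)
    (hm : ∀ a, C.UsedNeg a →
      (∀ y z : I → Bool, (∀ e, y e = true → z e = true) → C.val y a = true → C.val z a = true) ∨
      (∀ y z : I → Bool, (∀ e, y e = true → z e = true) → C.val z a = true → C.val y a = true)) :
    Alternates C t := by
  classical
  intro k x hx
  refine le_trans ?_ h
  set S : Set ℕ := {j : ℕ | j < k ∧ ∃ a, C.UsedNeg a ∧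
      C.val (x j) a ≠ C.val (x (j + 1)) a} with hS
  have hch : ∀ j ∈ S, ∃ a, C.UsedNeg a ∧ C.val (x j) a ≠ C.val (x (j + 1)) a := fun j hj => hj.2
  have : Nonempty (Fin C.s) := ⟨C.out⟩
  choose! g hg using hch
  apply Set.ncard_le_ncard_of_injOn g _ _ (Set.toFinite _)
  · intro j hj
    exact (hg j hj).1
  · intro i hi j hj hij
    have h1 := (hg i hi).2
    have h2 := (hg j hj).2
    rw [← hij] at h2
    exact change_once (f := fun y => C.val y (g i)) hx (hm (g i) (hg i hi).1) h1 h2

end Pool.Agent.W2helper95.KC
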