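import Pool.Agent.W2helper95.KC.Lost
import Pool.Agent.W2helper95.TS.Approx

/-!
# Approximation of the gates of a threshold circuit by small families of sets
-/

set_option autoImplicit false

open Finset

namespace Pool.Agent.W2helper95.KC

open Pool.Agent.W2helper95.ET Pool.Agent.W2helper95.TS

variable {V : Type} [DecidableEq V] [Fintype V] {κ : ℕ}

/-- the pairs with two colours -/
def kc (g : V → Fin κ) (p : Sym2 V) : Bool := decide (∃ a b : V, p = s(a, b) ∧ g a ≠ g b)

theorem kc_mk (g : V → Fin κ) (a b : V) : kc g s(a, b) = true ↔ g a ≠ g b := by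
  unfold kc
  rw [decide_eq_true_iff]
  constructor
  · rintro ⟨c, d, h, hne⟩
    rcases Sym2.eq_iff.1 h with ⟨rfl, rfl⟩ | ⟨rfl, rfl⟩
    · exact hne
    · exact hne.symm
  · exact fun h => ⟨a, b, rfl, h⟩

section

variable (C : Net (Sym2 V)) (E : Finset (Sym2 V)) (u : Sym2 V → Bool)
  (T : Finset (Finset V)) (r : ℕ)

/-- the approximator of the gate is good -/
def Gd (L : Finset (Finset V)) (R : Finset (V → Fin κ)) (i : Fin C.s)
    (A : Finset (Finset V)) : Prop :=
  (∀ U ∈ A, U.card ≤ κ ∧ U.card ≠ 1) ∧ A.card ≤ m0 κ r ∧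
  (∀ K ∈ T, K ∉ L → C.fz (inw E u fun _ => false) (inw E u (zK K)) i = true → accK A K) ∧
  ∀ g, g ∉ R → accG A g → C.fz (inw E u fun _ => false) (inw E u (kc g)) i = true

variable {C E u T r}

theorem Gd.mono {L L' : Finset (Finset V)} {R R' : Finset (V → Fin κ)} {i : Fin C.s}
    {A : Finset (Finset V)} (h : Gd C E u T r L R i A) (hL : L ⊆ L') (hR : R ⊆ R') :
    Gd C E u T r L' R' i A :=
  ⟨h.1, h.2.1, fun K hK hKL => h.2.2.1 K hK fun h1 => hKL (hL h1),
    fun g hg => h.2.2.2 g fun h1 => hg (hR h1)⟩

theorem Gd.const {L : Finset (Finset V)} {R : Finset (V → Fin κ)} {i : Fin C.s}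
    (c : Bool) (hc : ∀ z, C.fz (inw E u fun _ => false) (inw E u z) i = c) :
    Gd C E u T r L R i (if c = true then {∅} else ∅) := by
  cases c with
  | true =>
    refine ⟨fun U hU => ?_, ?_, fun K _ _ _ => ?_, fun g _ _ => ?_⟩
    · simp only [if_true, Finset.mem_singleton] at hU
      rw [hU]
      simp
    · simp only [if_true, Finset.card_singleton]
      exact m0_pos κ r
    · exact ⟨∅, by simp, Finset.empty_subset _⟩
    · exact hc _
  | false =>
    refine ⟨fun U hU => ?_, ?_, fun K _ _ h => ?_, fun g _ h => ?_⟩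
    · simp at hU
    · simp
    · rw [hc] at h
      simp at h
    · obtain ⟨U, hU, -⟩ := h
      simp at hU

open Classical in
/-- **The approximators.** -/
theorem approx (hE : ∀ p ∈ E, ¬ p.IsDiag) (hT : ∀ K ∈ T, K.card = κ + 1) (hκ : 2 ≤ κ)
    (hr : 2 * N1 κ r ≤ 2 ^ r) :
    ∀ n ≤ C.s, ∃ (A : Fin C.s → Finset (Finset V)) (L : Finset (Finset V))
      (R : Finset (V → Fin κ)), L.card ≤ Lo κ r * (thrs C n).card ∧
      R.card * 2 ^ r ≤ n * (m0 κ r * Fintype.card (V → Fin κ)) ∧
      ∀ i : Fin C.s, i.val < n → Gd C E u T r L R i (A i) := by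
  intro n
  induction n with
  | zero =>
    intro _
    exact ⟨fun _ => ∅, ∅, ∅, by simp, by simp, fun i hi => absurd hi (Nat.not_lt_zero _)⟩
  | succ n ih =>
    intro hn
    obtain ⟨A, L, R, hL, hR, hG⟩ := ih (by omega)
    set N := Fintype.card (V → Fin κ) with hN
    -- the extension
    have ext : ∀ (A' : Finset (Finset V)) (L' : Finset (Finset V)) (R' : Finset (V → Fin κ)),
        L ⊆ L' → R ⊆ R' → L'.card ≤ Lo κ r * (thrs C (n + 1)).card →
        R'.card * 2 ^ r ≤ (n + 1) * (m0 κ r * N) → Gd C E u T r L' R' ⟨n, hn⟩ A' →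
        ∃ (A : Fin C.s → Finset (Finset V)) (L : Finset (Finset V))
          (R : Finset (V → Fin κ)), L.card ≤ Lo κ r * (thrs C (n + 1)).card ∧
          R.card * 2 ^ r ≤ (n + 1) * (m0 κ r * N) ∧
          ∀ i : Fin C.s, i.val < n + 1 → Gd C E u T r L R i (A i) := by
      intro A' L' R' h1 h2 h3 h4 h5
      refine ⟨Function.update A ⟨n, hn⟩ A', L', R', h3, h4, fun i hi => ?_⟩
      by_cases hin : i = ⟨n, hn⟩
      · rw [hin, Function.update_self]
        exact h5
      · rw [Function.update_of_ne hin]
        refine (hG i ?_).mono h1 h2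
        have : i.val ≠ n := fun h => hin (Fin.ext h)
        omega
    have hL' : L.card ≤ Lo κ r * (thrs C (n + 1)).card :=
      hL.trans (Nat.mul_le_mul_left _ (thrs_mono C n))
    have hR' : R.card * 2 ^ r ≤ (n + 1) * (m0 κ r * N) :=
      hR.trans (Nat.mul_le_mul_right _ (by omega))
    have hRerr : ∀ f : (V → Fin κ) → Prop,
        (R ∪ er r f).card * 2 ^ r ≤ (n + 1) * (m0 κ r * N) := by
      intro f
      have h1 := Finset.card_union_le R (er r f)
      have h2 := Nat.mul_le_mul_right (2 ^ r) h1
      rw [add_mul] at h2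
      have h3 := er_card hr f
      rw [← hN] at h3
      have h4 : (n + 1) * (m0 κ r * N) = n * (m0 κ r * N) + m0 κ r * N := by ring
      omega
    cases hg : C.gate ⟨n, hn⟩ with
    | inp p =>
      by_cases hp : p ∈ E
      · obtain ⟨a, b, rfl⟩ : ∃ a b, p = s(a, b) := by
          induction p with
          | _ a b => exact ⟨a, b, rfl⟩
        have hab : a ≠ b := by
          have := hE _ hp
          rwa [Sym2.mk_isDiag_iff] at this
        have hcard : ({a, b} : Finset V).card = 2 := Finset.card_pair hab
        refine ext {{a, b}} L R (Subset.refl _) (Subset.refl _) hL' hR' ⟨?_, ?_, ?_, ?_⟩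
        · intro U hU
          rw [Finset.mem_singleton] at hU
          rw [hU, hcard]
          omega
        · rw [Finset.card_singleton]
          exact m0_pos κ r
        · intro K _ _ h
          rw [C.fz_inp hg, inw_mem hp, zK_iff, mem_prs] at h
          refine ⟨{a, b}, by simp, ?_⟩
          intro v hv
          simp only [Finset.mem_insert, Finset.mem_singleton] at hv
          rcases hv with rfl | rfl
          · exact h.1
          · exact h.2.1
        · rintro g _ ⟨U, hU, hUg⟩
          rw [Finset.mem_singleton] at hU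
          rw [C.fz_inp hg, inw_mem hp, kc_mk]
          intro heq
          rw [hU] at hUg
          exact hab (hUg a (by simp) b (by simp) heq)
      · refine ext _ L R (Subset.refl _) (Subset.refl _) hL' hR' (Gd.const (u p) fun z => ?_)
        rw [C.fz_inp hg, inw_not_mem hp]
    | const c =>
      exact ext _ L R (Subset.refl _) (Subset.refl _) hL' hR'
        (Gd.const c fun z => C.fz_const hg)
    | or S =>
      set i0 : Fin C.s := ⟨n, hn⟩ with hi0
      set F : Finset (Fin C.s) := S.filter fun a => a < i0 with hF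
      have hFn : ∀ a ∈ F, a.val < n := fun a ha => (Finset.mem_filter.1 ha).2
      set f : (V → Fin κ) → Prop := fun g => ∃ a ∈ F, accG (A a) g with hf
      refine ext (cl r f) L (R ∪ er r f)
        (Subset.refl _) Finset.subset_union_left hL' (hRerr f) ⟨?_, cl_card hr f, ?_, ?_⟩
      · intro U hU
        exact ⟨(mem_cl.1 hU).1.1, cl_ne_one hU⟩
      · intro K hK hKL h
        rw [C.fz_or hg] at h
        obtain ⟨a, hai, haS, hav⟩ := h
        have haF : a ∈ F := Finset.mem_filter.2 ⟨haS, hai⟩
        obtain ⟨U, hU, hUK⟩ := (hG a (hFn a haF)).2.2.1 K hK hKL hav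
        have hI : In r f U := in_of_forall ((hG a (hFn a haF)).1 U hU).1
          fun g hg' => ⟨a, haF, U, hU, hg'⟩
        obtain ⟨U', hU', hs⟩ := exists_cl hI
        exact ⟨U', hU', hs.trans hUK⟩
      · intro g hgR hacc
        rw [Finset.mem_union, not_or] at hgR
        have hfg : f g := of_not_mem_er hgR.2 hacc
        obtain ⟨a, haF, ha⟩ := hfg
        rw [C.fz_or hg]
        exact ⟨a, (Finset.mem_filter.1 haF).2, (Finset.mem_filter.1 haF).1,
          (hG a (hFn a haF)).2.2.2 g hgR.1 ha⟩
    | thr w θ =>
      set i0 : Fin C.s := ⟨n, hn⟩ with hi0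
      set x0 : Sym2 V → Bool := inw E u fun _ => false with hx0
      set F : Finset (Fin C.s) := univ.filter fun a => a < i0 with hF
      set wp : Fin C.s → ℝ := fun a => if w a < 0 then 0 else w a with hwp
      have hwp0 : ∀ a, 0 ≤ wp a := by
        intro a
        rw [hwp]
        simp only
        split_ifs with h
        · exact le_rfl
        · exact not_lt.1 h
      set c0 : ℝ := ∑ a ∈ F, if w a < 0 then (if C.val x0 a = true then w a else 0) else 0 with hc0
      have hfz : ∀ x, C.fz x0 x i0 = true ↔ θ - c0 ≤ ∑ a ∈ F with C.fz x0 x a = true, wp a := by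
        intro x
        have e0 : ∑ a ∈ F with C.fz x0 x a = true, wp a =
            ∑ a ∈ F, if C.fz x0 x a = true then wp a else 0 := Finset.sum_filter _ _
        rw [C.fz_thr hg, sub_le_iff_le_add', hc0, e0, ← Finset.sum_add_distrib]
        have e : ∀ a ∈ F, (if w a < 0 then (if C.val x0 a = true then w a else 0) else
            (if C.fz x0 x a = true then w a else 0)) =
            (if w a < 0 then (if C.val x0 a = true then w a else 0) else 0) +
            (if C.fz x0 x a = true then wp a else 0) := by
          intro a _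
          rw [hwp]
          simp only
          by_cases hw : w a < 0
          · rw [if_pos hw, if_pos hw, if_pos hw]
            simp
          · rw [if_neg hw, if_neg hw, if_neg hw, zero_add]
        rw [Finset.sum_congr rfl e]
      have hFn : ∀ a ∈ F, a.val < n := fun a ha => (Finset.mem_filter.1 ha).2
      set f : (V → Fin κ) → Prop := fT F A wp (θ - c0) κ with hf
      obtain ⟨L2, hL2, hlost⟩ := lost (κ := κ) (r := r) (F := F) (A := A) (w := wp) (θ := θ - c0)
        (fun a _ => hwp0 a) (fun a ha U hU => ((hG a (hFn a ha)).1 U hU).1)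
        (fun a ha => (hG a (hFn a ha)).2.1)
      refine ext (cl r f) (L ∪ L2)
        (R ∪ er r f)
        Finset.subset_union_left Finset.subset_union_left ?_ (hRerr f)
        ⟨?_, cl_card hr f, ?_, ?_⟩
      · refine (Finset.card_union_le _ _).trans ?_
        rw [thrs_succ C hn ⟨w, θ, hg⟩, mul_add, mul_one]
        exact Nat.add_le_add hL hL2
      · intro U hU
        exact ⟨(mem_cl.1 hU).1.1, cl_ne_one hU⟩
      · intro K hK hKL h
        rw [Finset.mem_union, not_or] at hKL
        apply hlost K (hT K hK) hKL.2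
        rw [hfz] at h
        refine h.trans ?_
        unfold wK
        apply Finset.sum_le_sum_of_subset_of_nonneg
        · intro a ha
          obtain ⟨h1, h2⟩ := Finset.mem_filter.1 ha
          exact Finset.mem_filter.2 ⟨h1, (hG a (hFn a h1)).2.2.1 K hK hKL.1 h2⟩
        · intro a _ _
          exact hwp0 a
      · intro g hgR hacc
        rw [Finset.mem_union, not_or] at hgR
        have hfg : f g := of_not_mem_er hgR.2 hacc
        rw [hfz]
        refine le_trans hfg ?_
        unfold wG
        apply Finset.sum_le_sum_of_subset_of_nonneg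
        · intro a ha
          obtain ⟨h1, h2⟩ := Finset.mem_filter.1 ha
          exact Finset.mem_filter.2 ⟨h1, (hG a (hFn a h1)).2.2.2 g hgR.1 h2⟩
        · intro a _ _
          exact hwp0 a

end

end Pool.Agent.W2helper95.KC
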