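import Pool.Agent.W2helper95.KC.Win
import Pool.Agent.W2helper95.TS.Avg

/-!
# Averaging over the chain of the blocks
-/

set_option autoImplicit false

open Finset

namespace Pool.Agent.W2helper95.KC

open Pool.Agent.W2helper95.ET (prs mem_prs zK zK_iff inw inw_mem inw_not_mem ind ind_nonneg ind_le
  ind_pos Dis resamp)
open Pool.Agent.W2helper95.TS

variable {V : Type} [DecidableEq V] [Fintype V] {m κ : ℕ}

/-- the input before the block `b` is used -/
def wv (E : Fin m → Finset (Sym2 V)) (b : ℕ) (γ : Fin m → V → Fin κ) : Sym2 V → Bool := fun p =>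
  decide (∃ b' : Fin m, b'.val < b ∧ p ∈ E b' ∧ kc (γ b') p = true)

theorem wv_iff (E : Fin m → Finset (Sym2 V)) (b : ℕ) (γ : Fin m → V → Fin κ) (p : Sym2 V) :
    wv E b γ p = true ↔ ∃ b' : Fin m, b'.val < b ∧ p ∈ E b' ∧ kc (γ b') p = true :=
  decide_eq_true_iff

theorem wv_mono (E : Fin m → Finset (Sym2 V)) (b : ℕ) (γ : Fin m → V → Fin κ) (p : Sym2 V) :
    wv E b γ p = true → wv E (b + 1) γ p = true := by
  rw [wv_iff, wv_iff]
  rintro ⟨b', h1, h2⟩
  exact ⟨b', by omega, h2⟩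

theorem wv_update (E : Fin m → Finset (Sym2 V)) (b : Fin m) (γ : Fin m → V → Fin κ)
    (g : V → Fin κ) : wv E b.val (Function.update γ b g) = wv E b.val γ := by
  funext p
  rw [Bool.eq_iff_iff, wv_iff, wv_iff]
  constructor
  · rintro ⟨b', h1, h2, h3⟩
    have hb : b' ≠ b := by rintro rfl; exact absurd h1 (lt_irrefl _)
    rw [Function.update_of_ne hb] at h3
    exact ⟨b', h1, h2, h3⟩
  · rintro ⟨b', h1, h2, h3⟩
    have hb : b' ≠ b := by rintro rfl; exact absurd h1 (lt_irrefl _)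
    refine ⟨b', h1, h2, ?_⟩
    rw [Function.update_of_ne hb]
    exact h3

theorem inw_false {E : Fin m → Finset (Sym2 V)} (hE : Dis E) (b : Fin m)
    (γ : Fin m → V → Fin κ) :
    inw (E b) (wv E b.val γ) (fun _ => false) = wv E b.val γ := by
  funext p
  by_cases hp : p ∈ E b
  · rw [inw_mem hp]
    by_contra hne
    have h1 : wv E b.val γ p = true := by
      cases h : wv E b.val γ p with
      | true => rfl
      | false => exact absurd h.symm hne
    obtain ⟨b', h1, h2, -⟩ := (wv_iff E b.val γ p).1 h1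
    have := hE b b' p hp h2
    subst this
    exact absurd h1 (lt_irrefl _)
  · rw [inw_not_mem hp]

theorem inw_kc {E : Fin m → Finset (Sym2 V)} (hE : Dis E) (b : Fin m)
    (γ : Fin m → V → Fin κ) (g : V → Fin κ) :
    inw (E b) (wv E b.val γ) (kc g) = wv E (b.val + 1) (Function.update γ b g) := by
  funext p
  by_cases hp : p ∈ E b
  · rw [inw_mem hp, Bool.eq_iff_iff, wv_iff]
    constructor
    · intro h
      refine ⟨b, by omega, hp, ?_⟩
      rw [Function.update_self]
      exact h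
    · rintro ⟨b', -, h2, h3⟩
      have := hE b b' p hp h2
      subst this
      rw [Function.update_self] at h3
      exact h3
  · rw [inw_not_mem hp, Bool.eq_iff_iff, wv_iff, wv_iff]
    constructor
    · rintro ⟨b', h1, h2, h3⟩
      have hb : b' ≠ b := by rintro rfl; exact absurd h1 (lt_irrefl _)
      refine ⟨b', by omega, h2, ?_⟩
      rw [Function.update_of_ne hb]
      exact h3
    · rintro ⟨b', h1, h2, h3⟩
      have hb : b' ≠ b := by rintro rfl; exact hp h2
      rw [Function.update_of_ne hb] at h3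
      refine ⟨b', ?_, h2, h3⟩
      have : b'.val ≠ b.val := fun h => hb (Fin.ext h)
      omega

/-- few changes of the signals with a negative weight along the chain -/
theorem changes (E : Fin m → Finset (Sym2 V)) (C : Net (Sym2 V)) {D : ℕ}
    (hD : AltN C D) (γ : Fin m → V → Fin κ) :
    ∑ b : Fin m, ind (C.Changed (wv E b.val γ) (wv E (b.val + 1) γ)) ≤ D := by
  classical
  have h := hD m (fun j => wv E j γ) (fun j p => wv_mono E j γ p)
  have h1 : ∑ b : Fin m, ind (C.Changed (wv E b.val γ) (wv E (b.val + 1) γ)) =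
      (((range m).filter fun j => C.Changed (wv E j γ) (wv E (j + 1) γ)).card : ℝ) := by
    rw [← Finset.sum_boole, Finset.sum_range]
    refine Finset.sum_congr rfl fun b _ => ?_
    unfold ind
    split_ifs <;> rfl
  rw [h1]
  exact_mod_cast h

/-- the graph has a clique with `k` vertices -/
def HasCl (k : ℕ) (x : Sym2 V → Bool) : Prop :=
  ∃ K : Finset V, K.card = k ∧ ∀ p ∈ prs K, x p = true

theorem has_inw {k : ℕ} {E : Finset (Sym2 V)} {u : Sym2 V → Bool} {K : Finset V}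
    (hK : K.card = k) (h : prs K ⊆ E) : HasCl k (inw E u (zK K)) := by
  refine ⟨K, hK, fun p hp => ?_⟩
  rw [inw_mem (h hp)]
  exact (zK_iff K p).2 hp

theorem not_has_wv {E : Fin m → Finset (Sym2 V)} (hE : Dis E)
    (hcl : ∀ K : Finset V, K.card = κ + 1 → (∀ p ∈ prs K, ∃ b, p ∈ E b) → ∃ b, prs K ⊆ E b)
    (b : ℕ) (γ : Fin m → V → Fin κ) : ¬ HasCl (κ + 1) (wv E b γ) := by
  rintro ⟨K, hK, h⟩
  obtain ⟨b0, hb0⟩ := hcl K hK fun p hp => by
    obtain ⟨b', -, h2, -⟩ := (wv_iff E b γ p).1 (h p hp)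
    exact ⟨b', h2⟩
  have hr : Rb (γ b0) K := by
    intro u hu v hv huv
    by_contra hne
    have hp : s(u, v) ∈ prs K := mem_prs.2 ⟨hu, hv, hne⟩
    obtain ⟨b', -, h2, h3⟩ := (wv_iff E b γ _).1 (h _ hp)
    have := hE b0 b' _ (hb0 hp) h2
    subst this
    exact (kc_mk _ _ _).1 h3 huv
  have := hr.card_le
  omega

/-- the inequality for one block and one circuit -/
theorem one_block {E : Fin m → Finset (Sym2 V)} (hdiag : ∀ b, ∀ p ∈ E b, ¬ p.IsDiag)
    (hE : Dis E) {T : Finset (Finset V)} (hT : ∀ K ∈ T, K.card = κ + 1) (hκ : 2 ≤ κ)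
    {r Q : ℕ} (hr : 2 * N1 κ r ≤ 2 ^ r)
    (hQ : ∀ U : Finset V, 2 ≤ U.card → (T.filter fun K => U ⊆ K).card ≤ Q)
    (C : Net (Sym2 V)) (b : Fin m) :
    ∑ γ : Fin m → V → Fin κ, ∑ K ∈ T, ind (C.eval (inw (E b) (wv E b.val γ) (zK K)) = true) ≤
      T.card * ∑ γ : Fin m → V → Fin κ, (ind (C.eval (wv E (b.val + 1) γ) = true) +
        ind (C.Changed (wv E b.val γ) (wv E (b.val + 1) γ))) +
      ((C.s + 1) * m0 κ r / 2 ^ r * T.card + Lam κ r Q C) *
        Fintype.card (Fin m → V → Fin κ) := by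
  classical
  set N : ℝ := ((Fintype.card (V → Fin κ) : ℕ) : ℝ) with hN
  have hN0 : 0 < N := by
    rw [hN]
    have : Nonempty (Fin κ) := ⟨⟨0, by omega⟩⟩
    exact_mod_cast Fintype.card_pos
  have h1 : ∀ γ : Fin m → V → Fin κ,
      (∑ K ∈ T, ind (C.eval (inw (E b) (wv E b.val γ) (zK K)) = true)) * N ≤
      T.card * ∑ g : V → Fin κ,
        (ind (C.eval (wv E (b.val + 1) (Function.update γ b g)) = true) +
        ind (C.Changed (wv E b.val (Function.update γ b g))
          (wv E (b.val + 1) (Function.update γ b g)))) +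
      ((C.s + 1) * m0 κ r / 2 ^ r * T.card + Lam κ r Q C) * N := by
    intro γ
    have h := dich_sum C (hdiag b) (wv E b.val γ) hT hκ hr hQ
    rw [inw_false hE] at h
    have e : ∀ g : V → Fin κ, (ind (C.eval (inw (E b) (wv E b.val γ) (kc g)) = true) +
        ind (C.Changed (wv E b.val γ) (inw (E b) (wv E b.val γ) (kc g)))) =
        (ind (C.eval (wv E (b.val + 1) (Function.update γ b g)) = true) +
        ind (C.Changed (wv E b.val (Function.update γ b g))
          (wv E (b.val + 1) (Function.update γ b g)))) := by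
      intro g
      rw [inw_kc hE, wv_update E b γ g]
    rw [Finset.sum_congr rfl fun g _ => e g] at h
    exact h
  have h2 := Finset.sum_le_sum fun (γ : Fin m → V → Fin κ) (_ : γ ∈ univ) => h1 γ
  rw [← Finset.sum_mul, Finset.sum_add_distrib, ← Finset.mul_sum, Finset.sum_const,
    Finset.card_univ, nsmul_eq_mul] at h2
  rw [resamp b (fun γ => ind (C.eval (wv E (b.val + 1) γ) = true) +
        ind (C.Changed (wv E b.val γ) (wv E (b.val + 1) γ))), ← hN] at h2
  have h3 : (∑ γ : Fin m → V → Fin κ, ∑ K ∈ T,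
      ind (C.eval (inw (E b) (wv E b.val γ) (zK K)) = true)) * N ≤
      (T.card * ∑ γ : Fin m → V → Fin κ, (ind (C.eval (wv E (b.val + 1) γ) = true) +
        ind (C.Changed (wv E b.val γ) (wv E (b.val + 1) γ))) +
      ((C.s + 1) * m0 κ r / 2 ^ r * T.card + Lam κ r Q C) *
        Fintype.card (Fin m → V → Fin κ)) * N := by
    calc _ ≤ _ := h2
      _ = _ := by ring
  exact le_of_mul_le_mul_right h3 hN0

/-- **The main inequality.** -/
theorem main_sum {E : Fin m → Finset (Sym2 V)} (hdiag : ∀ b, ∀ p ∈ E b, ¬ p.IsDiag)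
    (hE : Dis E) (hκ : 2 ≤ κ)
    (hcl : ∀ K : Finset V, K.card = κ + 1 → (∀ p ∈ prs K, ∃ b, p ∈ E b) → ∃ b, prs K ⊆ E b)
    {T : Fin m → Finset (Finset V)} (hT : ∀ b, ∀ K ∈ T b, K.card = κ + 1 ∧ prs K ⊆ E b)
    {τ Q : ℕ} (hTc : ∀ b, (T b).card = τ)
    (hQ : ∀ b, ∀ U : Finset V, 2 ≤ U.card → ((T b).filter fun K => U ⊆ K).card ≤ Q)
    {Ω : Type} [Fintype Ω] {p : Ω → ℝ} (hp : ∀ ω, 0 ≤ p ω) (hp1 : ∑ ω, p ω = 1)
    {C : Ω → Net (Sym2 V)} {D A s : ℕ} (hD : ∀ ω, AltN (C ω) D)
    (hA : ∀ ω, numThr (C ω) ≤ A) (hs : ∀ ω, (C ω).s ≤ s) {θ δ : ℝ}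
    (hyes : ∀ x, HasCl (κ + 1) x → θ + δ ≤ accProb p C x)
    (hno : ∀ x, ¬ HasCl (κ + 1) x → accProb p C x ≤ θ)
    {r : ℕ} (hr : 2 * N1 κ r ≤ 2 ^ r) (h1 : 4 * (((s : ℝ) + 1) * m0 κ r) ≤ δ * 2 ^ r) :
    3 / 4 * δ * (m * τ) ≤ τ * D + m * ((Lo κ r : ℝ) * A + m0 κ r * Q) := by
  classical
  have hκ0 : Nonempty (Fin κ) := ⟨⟨0, by omega⟩⟩
  set M : ℝ := ((Fintype.card (Fin m → V → Fin κ) : ℕ) : ℝ) with hM
  have hM0 : 0 < M := by rw [hM]; exact_mod_cast Fintype.card_pos
  set X : Fin m → ℝ := fun b => ∑ ω, p ω * ∑ γ : Fin m → V → Fin κ,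
    ind ((C ω).Changed (wv E b.val γ) (wv E (b.val + 1) γ)) with hX
  set lam : ℝ := (Lo κ r : ℝ) * A + m0 κ r * Q with hlam
  have hX0 : ∀ b, 0 ≤ X b := fun b => Finset.sum_nonneg fun ω _ =>
    mul_nonneg (hp ω) (Finset.sum_nonneg fun γ _ => ind_nonneg _)
  have hτ0 : (0 : ℝ) ≤ τ := Nat.cast_nonneg _
  -- the changes
  have hXs : ∑ b, X b ≤ D * M := by
    calc ∑ b, X b = ∑ ω, p ω * ∑ γ : Fin m → V → Fin κ, ∑ b : Fin m,
          ind ((C ω).Changed (wv E b.val γ) (wv E (b.val + 1) γ)) := by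
          rw [hX]
          simp only
          rw [Finset.sum_comm]
          refine Finset.sum_congr rfl fun ω _ => ?_
          rw [← Finset.mul_sum, Finset.sum_comm]
      _ ≤ ∑ ω, p ω * ∑ γ : Fin m → V → Fin κ, (D : ℝ) :=
          Finset.sum_le_sum fun ω _ => mul_le_mul_of_nonneg_left
            (Finset.sum_le_sum fun γ _ => changes E (C ω) (hD ω) γ) (hp ω)
      _ = D * M := by
          rw [Finset.sum_const, Finset.card_univ, nsmul_eq_mul, ← Finset.sum_mul, hp1, one_mul,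
            mul_comm]
  have hlω : ∀ ω, (Lam κ r Q (C ω) : ℝ) ≤ lam := by
    intro ω
    unfold Lam
    push_cast
    rw [hlam]
    have : (numThr (C ω) : ℝ) ≤ A := by exact_mod_cast hA ω
    have h4 : (0 : ℝ) ≤ (Lo κ r : ℝ) := Nat.cast_nonneg _
    have := mul_le_mul_of_nonneg_left this h4
    linarith
  have hεω : ∀ ω, (((C ω).s : ℝ) + 1) * m0 κ r / 2 ^ r ≤ δ / 4 := by
    intro ω
    have h4 : ((C ω).s : ℝ) ≤ s := by exact_mod_cast hs ω
    have h5 : (0 : ℝ) < 2 ^ r := by positivity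
    have h6 : (0 : ℝ) ≤ m0 κ r := Nat.cast_nonneg _
    have h7 := mul_le_mul_of_nonneg_right (add_le_add_left h4 1) h6
    rw [div_le_iff₀ h5]
    linarith
  -- the inequality for one block
  have hXb : ∀ b, 3 / 4 * δ * (τ : ℝ) * M ≤ τ * X b + lam * M := by
    intro b
    have hT3 : ∀ K ∈ T b, K.card = κ + 1 := fun K hK => (hT b K hK).1
    have hY : τ * (M * (θ + δ)) ≤ ∑ ω, p ω * ∑ γ : Fin m → V → Fin κ, ∑ K ∈ T b,
        ind ((C ω).eval (inw (E b) (wv E b.val γ) (zK K)) = true) := by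
      calc τ * (M * (θ + δ)) = ∑ γ : Fin m → V → Fin κ, ∑ K ∈ T b, (θ + δ) := by
            rw [Finset.sum_const, Finset.sum_const, Finset.card_univ, nsmul_eq_mul, nsmul_eq_mul,
              ← hM, hTc b]
            ring
        _ ≤ ∑ γ : Fin m → V → Fin κ, ∑ K ∈ T b,
              accProb p C (inw (E b) (wv E b.val γ) (zK K)) :=
            Finset.sum_le_sum fun γ _ => Finset.sum_le_sum fun K hK =>
              hyes _ (has_inw (hT b K hK).1 (hT b K hK).2)
        _ = _ := by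
            simp only [accProb_eq, Finset.mul_sum]
            rw [Finset.sum_comm]
            rw [Finset.sum_congr rfl fun K _ => Finset.sum_comm]
            rw [Finset.sum_comm]
            refine Finset.sum_congr rfl fun ω _ => ?_
            rw [Finset.sum_comm]
    have hN : ∑ ω, p ω * ∑ γ : Fin m → V → Fin κ,
        ind ((C ω).eval (wv E (b.val + 1) γ) = true) ≤ M * θ := by
      calc _ = ∑ γ : Fin m → V → Fin κ, accProb p C (wv E (b.val + 1) γ) := by
            simp only [accProb_eq, Finset.mul_sum]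
            rw [Finset.sum_comm]
        _ ≤ ∑ γ : Fin m → V → Fin κ, θ :=
            Finset.sum_le_sum fun γ _ => hno _ (not_has_wv hE hcl _ _)
        _ = M * θ := by rw [Finset.sum_const, Finset.card_univ, nsmul_eq_mul]
    have hω : ∀ ω, p ω * ∑ γ : Fin m → V → Fin κ, ∑ K ∈ T b,
        ind ((C ω).eval (inw (E b) (wv E b.val γ) (zK K)) = true) ≤
        p ω * (τ * ∑ γ : Fin m → V → Fin κ, ind ((C ω).eval (wv E (b.val + 1) γ) = true) +
          τ * ∑ γ : Fin m → V → Fin κ, ind ((C ω).Changed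
            (wv E b.val γ) (wv E (b.val + 1) γ)) + (δ / 4 * τ + lam) * M) := by
      intro ω
      apply mul_le_mul_of_nonneg_left _ (hp ω)
      refine (one_block hdiag hE hT3 hκ hr (hQ b) (C ω) b).trans ?_
      rw [Finset.sum_add_distrib, mul_add, hTc b]
      apply add_le_add le_rfl
      apply mul_le_mul_of_nonneg_right _ hM0.le
      exact add_le_add (mul_le_mul_of_nonneg_right (hεω ω) hτ0) (hlω ω)
    have hsum := Finset.sum_le_sum fun (ω : Ω) (_ : ω ∈ univ) => hω ω
    have e1 : ∑ ω, p ω * (τ * ∑ γ : Fin m → V → Fin κ,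
          ind ((C ω).eval (wv E (b.val + 1) γ) = true) +
          τ * ∑ γ : Fin m → V → Fin κ, ind ((C ω).Changed
            (wv E b.val γ) (wv E (b.val + 1) γ)) + (δ / 4 * τ + lam) * M) =
        τ * (∑ ω, p ω * ∑ γ : Fin m → V → Fin κ,
          ind ((C ω).eval (wv E (b.val + 1) γ) = true)) + τ * X b +
        (δ / 4 * τ + lam) * M := by
      have e2 : ∑ ω, p ω * ((δ / 4 * τ + lam) * M) = (δ / 4 * τ + lam) * M := by
        rw [← Finset.sum_mul, hp1, one_mul]
      rw [hX]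
      simp only
      rw [← e2, Finset.mul_sum, Finset.mul_sum, ← Finset.sum_add_distrib,
        ← Finset.sum_add_distrib]
      refine Finset.sum_congr rfl fun ω _ => ?_
      rw [e2]
      ring
    rw [e1] at hsum
    have h5 : τ * (∑ ω, p ω * ∑ γ : Fin m → V → Fin κ,
          ind ((C ω).eval (wv E (b.val + 1) γ) = true)) ≤ τ * (M * θ) :=
      mul_le_mul_of_nonneg_left hN hτ0
    linarith
  have hsumb := Finset.sum_le_sum fun (b : Fin m) (_ : b ∈ univ) => hXb b
  rw [Finset.sum_const, Finset.card_univ, Fintype.card_fin, nsmul_eq_mul,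
    Finset.sum_add_distrib, ← Finset.mul_sum, Finset.sum_const, Finset.card_univ,
    Fintype.card_fin, nsmul_eq_mul] at hsumb
  have h7 : τ * ∑ b, X b ≤ τ * (D * M) := mul_le_mul_of_nonneg_left hXs hτ0
  have h8 : (3 / 4 * δ * (m * τ)) * M ≤ (τ * D + m * lam) * M := by linarith
  exact le_of_mul_le_mul_right h8 hM0

end Pool.Agent.W2helper95.KC
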