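import Pool.Agent.W2helper95.KC.Col

/-!
# The closure of a property of colourings
-/

set_option autoImplicit false

open Finset

namespace Pool.Agent.W2helper95.KC

variable {V : Type} [DecidableEq V] [Fintype V] {κ : ℕ}

omit [Fintype V] in
open Classical in
/-- A family of sets without many sets that are disjoint outside a common part is small. -/
theorem sf {F : Finset (Finset V)} {k Np : ℕ} {base : Finset V} (hk : ∀ W ∈ F, W.card ≤ k)
    (h : ∀ C, base ⊆ C → ∀ G ⊆ F, (∀ W ∈ G, C ⊂ W) →
      (G : Set (Finset V)).PairwiseDisjoint (fun W => W \ C) → G.card ≤ Np) :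
    ∀ (i : ℕ) (C : Finset V), base ⊆ C →
      (F.filter fun W => C ⊆ W ∧ (W \ C).card ≤ i).card ≤ (1 + Np * k) ^ i := by
  intro i
  induction i with
  | zero =>
    intro C _
    rw [pow_zero, Finset.card_le_one]
    intro W hW W' hW'
    obtain ⟨-, h1, h2⟩ := Finset.mem_filter.1 hW
    obtain ⟨-, h1', h2'⟩ := Finset.mem_filter.1 hW'
    have e : ∀ W : Finset V, C ⊆ W → (W \ C).card ≤ 0 → W = C := by
      intro W h1 h2
      refine Finset.Subset.antisymm ?_ h1
      rw [← Finset.sdiff_eq_empty_iff_subset, ← Finset.card_eq_zero]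
      omega
    rw [e W h1 h2, e W' h1' h2']
  | succ i ih =>
    intro C hC
    set Wf := F.filter (fun W => C ⊂ W ∧ (W \ C).card ≤ i + 1) with hWf
    set P : Finset (Finset (Finset V)) := Wf.powerset.filter
      (fun G : Finset (Finset V) =>
        (G : Set (Finset V)).PairwiseDisjoint fun W => W \ C) with hP
    have hPne : P.Nonempty := by
      refine ⟨∅, Finset.mem_filter.2 ⟨Finset.empty_mem_powerset _, ?_⟩⟩
      simp
    obtain ⟨G, hG, hmax⟩ := P.exists_max_image Finset.card hPne
    obtain ⟨hGW, hGd⟩ := Finset.mem_filter.1 hG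
    rw [Finset.mem_powerset] at hGW
    have hGF : G ⊆ F := fun W hW => (Finset.mem_filter.1 (hGW hW)).1
    have hGc : G.card ≤ Np := h C hC G hGF
      (fun W hW => (Finset.mem_filter.1 (hGW hW)).2.1) hGd
    set Y := G.biUnion (fun W => W \ C) with hY
    have hYc : Y.card ≤ Np * k := by
      refine (Finset.card_biUnion_le_card_mul G _ k fun W hW => ?_).trans
        (Nat.mul_le_mul_right _ hGc)
      exact (Finset.card_le_card Finset.sdiff_subset).trans (hk W (hGF hW))
    have hcov : (F.filter fun W => C ⊆ W ∧ (W \ C).card ≤ i + 1) ⊆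
        {C} ∪ Y.biUnion (fun y => F.filter fun W => insert y C ⊆ W ∧
          (W \ insert y C).card ≤ i) := by
      intro W hW
      obtain ⟨hWF, h1, h2⟩ := Finset.mem_filter.1 hW
      by_cases hWC : W = C
      · exact Finset.mem_union_left _ (Finset.mem_singleton.2 hWC)
      · apply Finset.mem_union_right
        have hss : C ⊂ W := Finset.ssubset_iff_subset_ne.2 ⟨h1, fun h => hWC h.symm⟩
        have hWW : W ∈ Wf := Finset.mem_filter.2 ⟨hWF, hss, h2⟩
        have hmeet : ∃ y ∈ Y, y ∈ W := by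
          by_contra hcon
          push Not at hcon
          have hd : ∀ W' ∈ G, Disjoint (W \ C) (W' \ C) := by
            intro W' hW'
            rw [Finset.disjoint_left]
            intro y hy hy'
            exact hcon y (Finset.mem_biUnion.2 ⟨W', hW', hy'⟩) (Finset.mem_sdiff.1 hy).1
          have hWG : W ∉ G := by
            intro hWG
            obtain ⟨y, hyW, hyC⟩ := Finset.exists_of_ssubset hss
            exact hcon y (Finset.mem_biUnion.2 ⟨W, hWG, Finset.mem_sdiff.2 ⟨hyW, hyC⟩⟩) hyW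
          have hins : insert W G ∈ P := by
            refine Finset.mem_filter.2 ⟨?_, ?_⟩
            · rw [Finset.mem_powerset]
              exact Finset.insert_subset hWW hGW
            · rw [Finset.coe_insert, Set.pairwiseDisjoint_insert_of_notMem (by simpa using hWG)]
              exact ⟨hGd, fun W' hW' => hd W' hW'⟩
          have := hmax _ hins
          rw [Finset.card_insert_of_notMem hWG] at this
          omega
        obtain ⟨y, hyY, hyW⟩ := hmeet
        obtain ⟨W', -, hy'⟩ := Finset.mem_biUnion.1 hyY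
        have hyC := (Finset.mem_sdiff.1 hy').2
        refine Finset.mem_biUnion.2 ⟨y, hyY, Finset.mem_filter.2 ⟨hWF, ?_, ?_⟩⟩
        · exact Finset.insert_subset hyW h1
        · have e : W \ insert y C = (W \ C).erase y := by
            ext z
            simp only [Finset.mem_sdiff, Finset.mem_insert, Finset.mem_erase, not_or]
            tauto
          rw [e, Finset.card_erase_of_mem (Finset.mem_sdiff.2 ⟨hyW, hyC⟩)]
          omega
    refine (Finset.card_le_card hcov).trans ((Finset.card_union_le _ _).trans ?_)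
    rw [Finset.card_singleton]
    have h3 : (Y.biUnion (fun y => F.filter fun W => insert y C ⊆ W ∧
          (W \ insert y C).card ≤ i)).card ≤ Np * k * (1 + Np * k) ^ i := by
      refine (Finset.card_biUnion_le_card_mul Y _ ((1 + Np * k) ^ i) fun y _ => ?_).trans
        (Nat.mul_le_mul_right _ hYc)
      exact ih (insert y C) (hC.trans (Finset.subset_insert _ _))
    have h4 : 1 ≤ (1 + Np * k) ^ i := Nat.one_le_pow _ _ (by omega)
    calc 1 + (Y.biUnion (fun y => F.filter fun W => insert y C ⊆ W ∧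
          (W \ insert y C).card ≤ i)).card
        ≤ (1 + Np * k) ^ i + Np * k * (1 + Np * k) ^ i := Nat.add_le_add h4 h3
      _ = (1 + Np * k) ^ (i + 1) := by ring

omit [Fintype V] in
theorem sf' {F : Finset (Finset V)} {k Np : ℕ} {base : Finset V} (hk : ∀ W ∈ F, W.card ≤ k)
    (hb : ∀ W ∈ F, base ⊆ W)
    (h : ∀ C, base ⊆ C → ∀ G ⊆ F, (∀ W ∈ G, C ⊂ W) →
      (G : Set (Finset V)).PairwiseDisjoint (fun W => W \ C) → G.card ≤ Np) :
    F.card ≤ (1 + Np * k) ^ k := by
  classical
  have h1 := sf hk h k base (Finset.Subset.refl _)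
  rw [Finset.filter_true_of_mem] at h1
  · exact h1
  · intro W hW
    exact ⟨hb W hW, (Finset.card_le_card Finset.sdiff_subset).trans (hk W hW)⟩

open Classical in
/-- the number of the colourings for which `U` is rainbow and `f` fails -/
noncomputable def bet (f : (V → Fin κ) → Prop) (U : Finset V) : ℕ :=
  (univ.filter fun g : V → Fin κ => Rb g U ∧ ¬ f g).card

/-- `U` nearly forces `f` -/
def In (r : ℕ) (f : (V → Fin κ) → Prop) (U : Finset V) : Prop :=
  U.card ≤ κ ∧ bet f U * 2 ^ (r * (U.card + 1)) ≤ Fintype.card (V → Fin κ)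

open Classical in
/-- the minimal sets which nearly force `f` -/
noncomputable def cl (r : ℕ) (f : (V → Fin κ) → Prop) : Finset (Finset V) :=
  univ.filter fun U => In r f U ∧ ∀ U', U' ⊂ U → ¬ In r f U'

theorem mem_cl {r : ℕ} {f : (V → Fin κ) → Prop} {U : Finset V} :
    U ∈ cl r f ↔ In r f U ∧ ∀ U', U' ⊂ U → ¬ In r f U' := by
  classical
  simp [cl]

theorem exists_cl {r : ℕ} {f : (V → Fin κ) → Prop} : ∀ {U : Finset V}, In r f U →
    ∃ U' ∈ cl r f, U' ⊆ U := by
  intro U
  induction U using Finset.strongInduction with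
  | H U ih =>
    intro hU
    by_cases hmin : ∀ U', U' ⊂ U → ¬ In r f U'
    · exact ⟨U, mem_cl.2 ⟨hU, hmin⟩, Finset.Subset.refl _⟩
    · push Not at hmin
      obtain ⟨U', hss, hI⟩ := hmin
      obtain ⟨U'', h1, h2⟩ := ih U' hss hI
      exact ⟨U'', h1, h2.trans hss.subset⟩

/-- a set all of whose rainbow colourings satisfy `f` -/
theorem in_of_forall {r : ℕ} {f : (V → Fin κ) → Prop} {U : Finset V} (hU : U.card ≤ κ)
    (h : ∀ g, Rb g U → f g) : In r f U := by
  classical
  refine ⟨hU, ?_⟩
  have h0 : bet f U = 0 := by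
    unfold bet
    rw [Finset.card_eq_zero, Finset.filter_eq_empty_iff]
    rintro g - ⟨h1, h2⟩
    exact h2 (h g h1)
  rw [h0, zero_mul]
  exact Nat.zero_le _

/-- the number of the petals -/
def N1 (κ r : ℕ) : ℕ := κ ^ κ * (r * (κ + 1) + 1)

/-- the bound for the number of the minimal sets -/
def m0 (κ r : ℕ) : ℕ := (1 + N1 κ r * κ) ^ κ

theorem m0_pos (κ r : ℕ) : 1 ≤ m0 κ r := Nat.one_le_pow _ _ (by omega)

/-- a set nearly forces `f` if it is the common part of many sets which nearly force `f` -/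
theorem in_core {r : ℕ} (hr : 2 * N1 κ r ≤ 2 ^ r) {f : (V → Fin κ) → Prop} {C : Finset V}
    {G : Finset (Finset V)} (hG : ∀ U ∈ G, In r f U) (hC : ∀ U ∈ G, C ⊂ U)
    (hd : (G : Set (Finset V)).PairwiseDisjoint fun U => U \ C) (hc : N1 κ r ≤ G.card) :
    In r f C := by
  classical
  obtain ⟨G', hG'G, hG'c⟩ := Finset.exists_subset_card_eq hc
  have hN1 : 0 < N1 κ r := Nat.mul_pos (M_pos κ) (by omega)
  have hne : G'.Nonempty := by
    rw [← Finset.card_pos, hG'c]
    exact hN1
  have hCκ : C.card + 1 ≤ κ := by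
    obtain ⟨U, hU⟩ := hne
    have h1 := Finset.card_lt_card (hC U (hG'G hU))
    have h2 := (hG U (hG'G hU)).1
    omega
  refine ⟨by omega, ?_⟩
  set N := Fintype.card (V → Fin κ) with hN
  set e := r * (C.card + 1) with he
  have h1 := unlikely' (κ := κ) C G' (fun U hU => (hG U (hG'G hU)).1)
    (hd.subset (by exact_mod_cast hG'G)) (t := r * (κ + 1) + 1) hG'c
  have hsub : (univ.filter fun g : V → Fin κ => Rb g C ∧ ¬ f g) ⊆
      none' κ C G' ∪ G'.biUnion fun U => univ.filter fun g : V → Fin κ => Rb g U ∧ ¬ f g := by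
    intro g hg
    obtain ⟨-, hg1, hg2⟩ := Finset.mem_filter.1 hg
    by_cases hm : g ∈ none' κ C G'
    · exact Finset.mem_union_left _ hm
    · apply Finset.mem_union_right
      have hex : ∃ U ∈ G', Rb g U := by
        by_contra hcon
        push Not at hcon
        exact hm (Finset.mem_filter.2 ⟨mem_univ _, hg1, hcon⟩)
      obtain ⟨U, hU, hUg⟩ := hex
      exact Finset.mem_biUnion.2 ⟨U, hU, Finset.mem_filter.2 ⟨mem_univ _, hUg, hg2⟩⟩
  have h2 : bet f C ≤ (none' κ C G').card + ∑ U ∈ G', bet f U := by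
    unfold bet
    exact (Finset.card_le_card hsub).trans ((Finset.card_union_le _ _).trans
      (Nat.add_le_add_left Finset.card_biUnion_le _))
  have h3 : (∑ U ∈ G', bet f U) * 2 ^ (e + r) ≤ N1 κ r * N := by
    rw [Finset.sum_mul, ← hG'c]
    calc ∑ U ∈ G', bet f U * 2 ^ (e + r) ≤ ∑ U ∈ G', N := by
          refine Finset.sum_le_sum fun U hU => ?_
          refine le_trans (Nat.mul_le_mul_left _ (Nat.pow_le_pow_right (by norm_num) ?_))
            (hG U (hG'G hU)).2
          have h4 := Finset.card_lt_card (hC U (hG'G hU))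
          calc e + r = r * (C.card + 1 + 1) := by rw [he]; ring
            _ ≤ r * (U.card + 1) := Nat.mul_le_mul_left _ (by omega)
      _ = G'.card * N := by rw [Finset.sum_const, smul_eq_mul]
  have h4 : (∑ U ∈ G', bet f U) * 2 ^ (e + 1) ≤ N := by
    apply Nat.le_of_mul_le_mul_left _ hN1
    calc N1 κ r * ((∑ U ∈ G', bet f U) * 2 ^ (e + 1))
        = (∑ U ∈ G', bet f U) * (2 ^ e * (2 * N1 κ r)) := by ring
      _ ≤ (∑ U ∈ G', bet f U) * (2 ^ e * 2 ^ r) :=
          Nat.mul_le_mul_left _ (Nat.mul_le_mul_left _ hr)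
      _ = (∑ U ∈ G', bet f U) * 2 ^ (e + r) := by rw [pow_add]
      _ ≤ N1 κ r * N := h3
  have h5 : (none' κ C G').card * 2 ^ (e + 1) ≤ N := by
    refine le_trans (Nat.mul_le_mul_left _ (Nat.pow_le_pow_right (by norm_num) ?_)) h1
    have : e ≤ r * (κ + 1) := Nat.mul_le_mul_left _ (by omega)
    omega
  have h6 : bet f C * 2 ^ (e + 1) ≤ N + N := by
    calc bet f C * 2 ^ (e + 1) ≤ ((none' κ C G').card + ∑ U ∈ G', bet f U) * 2 ^ (e + 1) :=
          Nat.mul_le_mul_right _ h2
      _ = (none' κ C G').card * 2 ^ (e + 1) + (∑ U ∈ G', bet f U) * 2 ^ (e + 1) := by ring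
      _ ≤ _ := Nat.add_le_add h5 h4
  have h7 : bet f C * 2 ^ (e + 1) = 2 * (bet f C * 2 ^ e) := by ring
  omega

/-- few minimal sets -/
theorem cl_card {r : ℕ} (hr : 2 * N1 κ r ≤ 2 ^ r) (f : (V → Fin κ) → Prop) :
    (cl r f).card ≤ m0 κ r := by
  apply sf' (base := ∅) (fun W hW => (mem_cl.1 hW).1.1) (fun W _ => Finset.empty_subset _)
  intro C _ G hG hC hd
  by_contra hcon
  push Not at hcon
  have h1 := in_core hr (fun U hU => (mem_cl.1 (hG hU)).1) hC hd hcon.le
  have hne : G.Nonempty := by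
    rw [← Finset.card_pos]
    omega
  obtain ⟨U, hU⟩ := hne
  exact (mem_cl.1 (hG hU)).2 C (hC U hU) h1

/-- the approximator `A` accepts the colouring `g` -/
def accG (A : Finset (Finset V)) (g : V → Fin κ) : Prop := ∃ U ∈ A, Rb g U

/-- the approximator `A` accepts the clique `K` -/
def accK (A : Finset (Finset V)) (K : Finset V) : Prop := ∃ U ∈ A, U ⊆ K

open Classical in
/-- the error of the closure -/
theorem cl_err {r : ℕ} (hr : 2 * N1 κ r ≤ 2 ^ r) (f : (V → Fin κ) → Prop) :
    (univ.filter fun g : V → Fin κ => accG (cl r f) g ∧ ¬ f g).card * 2 ^ r ≤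
      m0 κ r * Fintype.card (V → Fin κ) := by
  have hsub : (univ.filter fun g : V → Fin κ => accG (cl r f) g ∧ ¬ f g) ⊆
      (cl r f).biUnion fun U => univ.filter fun g : V → Fin κ => Rb g U ∧ ¬ f g := by
    intro g hg
    obtain ⟨-, ⟨U, hU, hUg⟩, hf⟩ := Finset.mem_filter.1 hg
    exact Finset.mem_biUnion.2 ⟨U, hU, Finset.mem_filter.2 ⟨mem_univ _, hUg, hf⟩⟩
  calc _ ≤ (∑ U ∈ cl r f, bet f U) * 2 ^ r :=
        Nat.mul_le_mul_right _ ((Finset.card_le_card hsub).trans Finset.card_biUnion_le)
    _ = ∑ U ∈ cl r f, bet f U * 2 ^ r := Finset.sum_mul _ _ _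
    _ ≤ ∑ U ∈ cl r f, Fintype.card (V → Fin κ) := by
        refine Finset.sum_le_sum fun U hU => ?_
        refine le_trans (Nat.mul_le_mul_left _ (Nat.pow_le_pow_right (by norm_num) ?_))
          (mem_cl.1 hU).1.2
        calc r = r * 1 := (mul_one _).symm
          _ ≤ r * (U.card + 1) := Nat.mul_le_mul_left _ (by omega)
    _ = (cl r f).card * Fintype.card (V → Fin κ) := by rw [Finset.sum_const, smul_eq_mul]
    _ ≤ _ := Nat.mul_le_mul_right _ (cl_card hr f)

open Classical in
/-- the colourings for which the closure is wrong -/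
noncomputable def er (r : ℕ) (f : (V → Fin κ) → Prop) : Finset (V → Fin κ) :=
  univ.filter fun g : V → Fin κ => accG (cl r f) g ∧ ¬ f g

theorem er_card {r : ℕ} (hr : 2 * N1 κ r ≤ 2 ^ r) (f : (V → Fin κ) → Prop) :
    (er r f).card * 2 ^ r ≤ m0 κ r * Fintype.card (V → Fin κ) := cl_err hr f

theorem of_not_mem_er {r : ℕ} {f : (V → Fin κ) → Prop} {g : V → Fin κ} (h : g ∉ er r f)
    (ha : accG (cl r f) g) : f g := by
  classical
  by_contra hcon
  exact h (Finset.mem_filter.2 ⟨mem_univ _, ha, hcon⟩)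

/-- no minimal set has one element -/
theorem cl_ne_one {r : ℕ} {f : (V → Fin κ) → Prop} {U : Finset V} (hU : U ∈ cl r f) :
    U.card ≠ 1 := by
  classical
  intro h1
  obtain ⟨hI, hmin⟩ := mem_cl.1 hU
  obtain ⟨v, rfl⟩ := Finset.card_eq_one.1 h1
  apply hmin ∅ (by simp)
  refine ⟨by simp, ?_⟩
  have e : bet f (∅ : Finset V) = bet f {v} := by
    unfold bet
    congr 1
    ext g
    simp only [Finset.mem_filter, Finset.mem_univ, true_and]
    constructor
    · rintro ⟨-, h2⟩
      refine ⟨fun a ha b hb _ => ?_, h2⟩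
      rw [Finset.mem_singleton] at ha hb
      rw [ha, hb]
    · rintro ⟨-, h2⟩
      exact ⟨rb_empty g, h2⟩
  rw [e]
  refine le_trans (Nat.mul_le_mul_left _ (Nat.pow_le_pow_right (by norm_num) ?_)) hI.2
  exact Nat.mul_le_mul_left _ (by simp)

end Pool.Agent.W2helper95.KC
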