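import Mathlib

/-!
# Random colourings: many of many disjoint sets are rainbow
-/

set_option autoImplicit false

open Finset

namespace Pool.Agent.W2helper95.KC

variable {V : Type} [DecidableEq V] [Fintype V] {κ : ℕ}

/-- the set `U` is rainbow: its vertices have different colours -/
def Rb (g : V → Fin κ) (U : Finset V) : Prop := ∀ u ∈ U, ∀ v ∈ U, g u = g v → u = v

theorem Rb.mono {g : V → Fin κ} {U U' : Finset V} (h : Rb g U) (hU : U' ⊆ U) : Rb g U' :=
  fun u hu v hv => h u (hU hu) v (hU hv)

theorem rb_empty (g : V → Fin κ) : Rb g ∅ := fun u hu => absurd hu (Finset.notMem_empty u)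

theorem Rb.card_le {g : V → Fin κ} {U : Finset V} (h : Rb g U) : U.card ≤ κ := by
  have h1 : (U.image g).card = U.card := Finset.card_image_of_injOn fun u hu v hv => h u hu v hv
  rw [← h1]
  have := Finset.card_le_univ (U.image g)
  rwa [Fintype.card_fin] at this

/-- the colouring can be changed on `U \ V'` such that `U` is rainbow -/
theorem exists_recol {g : V → Fin κ} {V' U : Finset V} (hg : Rb g V') (hU : U.card ≤ κ) :
    ∃ g' : V → Fin κ, (∀ v, v ∉ U \ V' → g' v = g v) ∧ Rb g' U := by
  classical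
  set A := U ∩ V' with hA
  set P := U \ V' with hP
  set fr : Finset (Fin κ) := univ \ A.image g with hfr
  have hAi : (A.image g).card = A.card :=
    Finset.card_image_of_injOn fun u hu v hv =>
      hg u (Finset.mem_inter.1 hu).2 v (Finset.mem_inter.1 hv).2
  have hfc : fr.card = κ - A.card := by
    rw [hfr, Finset.card_sdiff_of_subset (Finset.subset_univ _), Finset.card_univ, Fintype.card_fin, hAi]
  have hUc : A.card + P.card = U.card := by
    rw [hA, hP]
    exact Finset.card_inter_add_card_sdiff U V'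
  have hle : Fintype.card {x // x ∈ P} ≤ Fintype.card {x // x ∈ fr} := by
    rw [Fintype.card_coe, Fintype.card_coe, hfc]
    omega
  obtain ⟨f, hf1, hf2⟩ : ∃ f : V → Fin κ, (∀ u ∈ P, f u ∈ fr) ∧
      ∀ u ∈ P, ∀ v ∈ P, f u = f v → u = v := by
    obtain ⟨e⟩ := Function.Embedding.nonempty_of_card_le hle
    refine ⟨fun v => if h : v ∈ P then (e ⟨v, h⟩ : Fin κ) else g v, ?_, ?_⟩
    · intro u hu
      have h1 : (fun v => if h : v ∈ P then (e ⟨v, h⟩ : Fin κ) else g v) u =
          (e ⟨u, hu⟩ : Fin κ) := dif_pos hu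
      rw [h1]
      exact (e ⟨u, hu⟩).2
    · intro u hu v hv huv
      have h1 : (fun v => if h : v ∈ P then (e ⟨v, h⟩ : Fin κ) else g v) u =
          (e ⟨u, hu⟩ : Fin κ) := dif_pos hu
      have h2 : (fun v => if h : v ∈ P then (e ⟨v, h⟩ : Fin κ) else g v) v =
          (e ⟨v, hv⟩ : Fin κ) := dif_pos hv
      rw [h1, h2] at huv
      exact congrArg Subtype.val (e.injective (Subtype.ext huv))
  refine ⟨fun v => if v ∈ P then f v else g v, fun v hv => if_neg hv, ?_⟩
  have hcross : ∀ u v, u ∈ P → v ∈ U → v ∉ P → f u ≠ g v := by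
    intro u v huP hv hvP heq
    have h1 := hf1 u huP
    rw [hfr, Finset.mem_sdiff] at h1
    apply h1.2
    rw [heq]
    apply Finset.mem_image_of_mem
    rw [hA, Finset.mem_inter]
    refine ⟨hv, ?_⟩
    by_contra hcon
    exact hvP (Finset.mem_sdiff.2 ⟨hv, hcon⟩)
  intro u hu v hv huv
  simp only at huv
  by_cases huP : u ∈ P <;> by_cases hvP : v ∈ P
  · rw [if_pos huP, if_pos hvP] at huv
    exact hf2 u huP v hvP huv
  · rw [if_pos huP, if_neg hvP] at huv
    exact absurd huv (hcross u v huP hv hvP)
  · rw [if_neg huP, if_pos hvP] at huv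
    exact absurd huv.symm (hcross v u hvP hu huP)
  · rw [if_neg huP, if_neg hvP] at huv
    refine hg u ?_ v ?_ huv
    · by_contra hcon
      exact huP (Finset.mem_sdiff.2 ⟨hu, hcon⟩)
    · by_contra hcon
      exact hvP (Finset.mem_sdiff.2 ⟨hv, hcon⟩)

open Classical in
/-- the colourings for which `V'` is rainbow and no set in `G` is rainbow -/
noncomputable def none' (κ : ℕ) (V' : Finset V) (G : Finset (Finset V)) : Finset (V → Fin κ) :=
  univ.filter fun g => Rb g V' ∧ ∀ U ∈ G, ¬ Rb g U

open Classical in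
theorem step (V' : Finset V) (G : Finset (Finset V)) {U : Finset V} (hU : U.card ≤ κ)
    (hG : ∀ U' ∈ G, Disjoint (U' \ V') (U \ V')) :
    (none' κ V' G).card ≤ κ ^ κ * ((none' κ V' G).filter fun g => Rb g U).card := by
  have hex : ∀ g : V → Fin κ, ∃ g' : V → Fin κ, Rb g V' →
      (∀ v, v ∉ U \ V' → g' v = g v) ∧ Rb g' U := by
    intro g
    by_cases hg : Rb g V'
    · obtain ⟨g', h⟩ := exists_recol hg hU
      exact ⟨g', fun _ => h⟩
    · exact ⟨g, fun h => absurd h hg⟩
  choose φ hφ using hex
  apply Finset.card_le_mul_card_image_of_maps_to (f := φ)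
  · intro g hg
    obtain ⟨-, hg1, hg2⟩ := Finset.mem_filter.1 hg
    obtain ⟨h1, h2⟩ := hφ g hg1
    refine Finset.mem_filter.2 ⟨Finset.mem_filter.2 ⟨mem_univ _, ?_, ?_⟩, h2⟩
    · intro u hu v hv huv
      rw [h1 u (fun h => (Finset.mem_sdiff.1 h).2 hu), h1 v (fun h => (Finset.mem_sdiff.1 h).2 hv)]
        at huv
      exact hg1 u hu v hv huv
    · intro U' hU' hr
      apply hg2 U' hU'
      have hsame : ∀ u ∈ U', φ g u = g u := by
        intro u hu
        apply h1
        intro huU
        have huV := (Finset.mem_sdiff.1 huU).2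
        exact Finset.disjoint_left.1 (hG U' hU') (Finset.mem_sdiff.2 ⟨hu, huV⟩) huU
      intro u hu v hv huv
      apply hr u hu v hv
      rw [hsame u hu, hsame v hv]
      exact huv
  · intro g' _
    have h1 : ((none' κ V' G).filter fun g => φ g = g').card ≤
        Fintype.card ({x // x ∈ U \ V'} → Fin κ) := by
      rw [← Finset.card_univ]
      apply Finset.card_le_card_of_injOn (fun g => fun x : {x // x ∈ U \ V'} => g x)
      · intro g _
        exact Finset.mem_coe.2 (mem_univ _)
      · intro g1 hg1 g2 hg2 heq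
        obtain ⟨h1, h1'⟩ := Finset.mem_filter.1 (Finset.mem_coe.1 hg1)
        obtain ⟨h2, h2'⟩ := Finset.mem_filter.1 (Finset.mem_coe.1 hg2)
        have k1 := hφ g1 (Finset.mem_filter.1 h1).2.1
        have k2 := hφ g2 (Finset.mem_filter.1 h2).2.1
        funext v
        by_cases hv : v ∈ U \ V'
        · exact congrFun heq ⟨v, hv⟩
        · rw [← k1.1 v hv, ← k2.1 v hv, h1', h2']
    refine h1.trans ?_
    rw [Fintype.card_fun, Fintype.card_fin, Fintype.card_coe]
    rcases Nat.eq_zero_or_pos κ with h0 | h0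
    · subst h0
      have : (U \ V').card = 0 := by
        have := Finset.card_le_card (Finset.sdiff_subset : U \ V' ⊆ U)
        omega
      rw [this]
    · exact Nat.pow_le_pow_right h0 ((Finset.card_le_card Finset.sdiff_subset).trans hU)

open Classical in
/-- it is unlikely that no set of many disjoint sets is rainbow -/
theorem unlikely (V' : Finset V) (G : Finset (Finset V)) (hU : ∀ U ∈ G, U.card ≤ κ)
    (hG : (G : Set (Finset V)).PairwiseDisjoint fun U => U \ V') :
    (none' κ V' G).card * (κ ^ κ) ^ G.card ≤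
      (κ ^ κ - 1) ^ G.card * Fintype.card (V → Fin κ) := by
  induction G using Finset.induction_on with
  | empty =>
    simp only [Finset.card_empty, pow_zero, mul_one, one_mul]
    exact Finset.card_le_univ _
  | insert U G hUG ih =>
    have ih' := ih (fun U' hU' => hU U' (Finset.mem_insert_of_mem hU'))
      (hG.subset (by simp))
    have hst := step (κ := κ) V' G (hU U (Finset.mem_insert_self _ _)) (by
      intro U' hU'
      apply hG (Finset.mem_coe.2 (Finset.mem_insert_of_mem hU'))
        (Finset.mem_coe.2 (Finset.mem_insert_self _ _))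
      rintro rfl
      exact hUG hU')
    rw [Finset.card_insert_of_notMem hUG]
    have hsplit : (none' κ V' (insert U G)).card +
        ((none' κ V' G).filter fun g => Rb g U).card = (none' κ V' G).card := by
      rw [← Finset.card_filter_add_card_filter_not (s := none' κ V' G) (fun g => Rb g U), add_comm]
      congr 2
      ext g
      simp only [none', Finset.mem_filter, Finset.mem_univ, true_and, Finset.mem_insert,
        forall_eq_or_imp]
      tauto
    set M := κ ^ κ with hM
    have hM1 : 1 ≤ M := by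
      rw [hM]
      rcases Nat.eq_zero_or_pos κ with h0 | h0
      · subst h0; simp
      · exact Nat.one_le_pow _ _ h0
    set a := (none' κ V' (insert U G)).card with ha
    set b := ((none' κ V' G).filter fun g => Rb g U).card with hb
    set c := (none' κ V' G).card with hc
    have h1 : a * M ≤ (M - 1) * c := by
      obtain ⟨M', hM'⟩ : ∃ M', M = M' + 1 := ⟨M - 1, by omega⟩
      rw [hM'] at hst ⊢
      rw [Nat.add_sub_cancel]
      have h2 : a * (M' + 1) + (M' + 1) * b = c * (M' + 1) := by
        rw [← hsplit]; ring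
      have h3 : c * (M' + 1) = M' * c + c := by ring
      omega
    calc a * M ^ (G.card + 1) = (a * M) * M ^ G.card := by ring
      _ ≤ ((M - 1) * c) * M ^ G.card := Nat.mul_le_mul_right _ h1
      _ = (M - 1) * (c * M ^ G.card) := by ring
      _ ≤ (M - 1) * ((M - 1) ^ G.card * Fintype.card (V → Fin κ)) := Nat.mul_le_mul_left _ ih'
      _ = _ := by ring

theorem pow_half (M t : ℕ) (hM : 1 ≤ M) : (M - 1) ^ (M * t) * 2 ^ t ≤ M ^ (M * t) := by
  obtain ⟨a, rfl⟩ : ∃ a, M = a + 1 := ⟨M - 1, by omega⟩
  rw [Nat.add_sub_cancel, pow_mul, ← mul_pow, pow_mul]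
  apply Nat.pow_le_pow_left
  rcases Nat.eq_zero_or_pos a with h0 | h0
  · subst h0; simp
  · have ha : (0 : ℝ) < a := by exact_mod_cast h0
    have h1 : (1 : ℝ) + ((a + 1 : ℕ) : ℝ) * (1 / a) ≤ (1 + 1 / a) ^ (a + 1) :=
      one_add_mul_le_pow (by have : (0 : ℝ) < 1 / a := by positivity
                             linarith) (a + 1)
    have h2 : (2 : ℝ) ≤ (1 + 1 / a) ^ (a + 1) := by
      refine le_trans ?_ h1
      push_cast
      rw [mul_one_div, add_div, div_self ha.ne']
      have : (0 : ℝ) < 1 / a := by positivity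
      linarith
    have h3 : (a : ℝ) ^ (a + 1) * 2 ≤ ((a : ℝ) + 1) ^ (a + 1) := by
      calc (a : ℝ) ^ (a + 1) * 2 ≤ (a : ℝ) ^ (a + 1) * (1 + 1 / a) ^ (a + 1) :=
            mul_le_mul_of_nonneg_left h2 (by positivity)
        _ = (a * (1 + 1 / a)) ^ (a + 1) := (mul_pow _ _ _).symm
        _ = _ := by
            congr 1
            field_simp
    exact_mod_cast h3

theorem M_pos (κ : ℕ) : 1 ≤ κ ^ κ := by
  rcases Nat.eq_zero_or_pos κ with h0 | h0
  · subst h0; simp
  · exact Nat.one_le_pow _ _ h0

/-- the same with a simple bound -/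
theorem unlikely' (V' : Finset V) (G : Finset (Finset V)) (hU : ∀ U ∈ G, U.card ≤ κ)
    (hG : (G : Set (Finset V)).PairwiseDisjoint fun U => U \ V') {t : ℕ}
    (ht : G.card = κ ^ κ * t) :
    (none' κ V' G).card * 2 ^ t ≤ Fintype.card (V → Fin κ) := by
  have h1 := unlikely V' G hU hG
  have h2 := pow_half (κ ^ κ) t (M_pos κ)
  rw [ht] at h1
  set M := κ ^ κ with hM
  set N := Fintype.card (V → Fin κ) with hN
  have hpos : 0 < M ^ (M * t) := Nat.pow_pos (M_pos κ)
  apply Nat.le_of_mul_le_mul_left _ hpos
  calc M ^ (M * t) * ((none' κ V' G).card * 2 ^ t)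
      = ((none' κ V' G).card * M ^ (M * t)) * 2 ^ t := by ring
    _ ≤ ((M - 1) ^ (M * t) * N) * 2 ^ t := Nat.mul_le_mul_right _ h1
    _ = ((M - 1) ^ (M * t) * 2 ^ t) * N := by ring
    _ ≤ M ^ (M * t) * N := Nat.mul_le_mul_right _ h2

open Classical in
/-- it is unlikely that few of many disjoint sets are rainbow -/
theorem manyRb (V' : Finset V) (t : ℕ) : ∀ (h : ℕ) (G : Finset (Finset V)),
    (∀ U ∈ G, U.card ≤ κ) → (G : Set (Finset V)).PairwiseDisjoint (fun U => U \ V') →
    h * (κ ^ κ * t) ≤ G.card →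
    (univ.filter fun g : V → Fin κ => Rb g V' ∧ (G.filter fun U => Rb g U).card < h).card * 2 ^ t ≤
      h * Fintype.card (V → Fin κ) := by
  intro h
  induction h with
  | zero => intro G _ _ _; simp
  | succ h ih =>
    intro G hU hG hc
    have h0 : κ ^ κ * t ≤ G.card := by
      refine le_trans ?_ hc
      rw [add_mul, one_mul]
      exact Nat.le_add_left _ _
    obtain ⟨M, hMG, hMc⟩ := Finset.exists_subset_card_eq h0
    have h1 := ih (G \ M) (fun U hU' => hU U (Finset.mem_sdiff.1 hU').1)
      (hG.subset (by intro U hU'; exact (Finset.mem_sdiff.1 (Finset.mem_coe.1 hU')).1)) (by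
        rw [Finset.card_sdiff_of_subset hMG, hMc]
        have : (h + 1) * (κ ^ κ * t) = h * (κ ^ κ * t) + κ ^ κ * t := by ring
        omega)
    have h2 := unlikely' V' M (fun U hU' => hU U (hMG hU')) (hG.subset (by exact_mod_cast hMG)) hMc
    have hsub : (univ.filter fun g : V → Fin κ =>
        Rb g V' ∧ (G.filter fun U => Rb g U).card < h + 1) ⊆
        none' κ V' M ∪ (univ.filter fun g : V → Fin κ =>
          Rb g V' ∧ ((G \ M).filter fun U => Rb g U).card < h) := by
      intro g hg
      obtain ⟨-, hg1, hg2⟩ := Finset.mem_filter.1 hg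
      by_cases hm : g ∈ none' κ V' M
      · exact Finset.mem_union_left _ hm
      · apply Finset.mem_union_right
        refine Finset.mem_filter.2 ⟨mem_univ _, hg1, ?_⟩
        have hex : ∃ U ∈ M, Rb g U := by
          by_contra hcon
          push Not at hcon
          exact hm (Finset.mem_filter.2 ⟨mem_univ _, hg1, hcon⟩)
        obtain ⟨U, hUM, hUg⟩ := hex
        have h3 : ((G \ M).filter fun U => Rb g U) ⊂ G.filter fun U => Rb g U := by
          refine ⟨fun W hW => ?_, fun hcon => ?_⟩
          · obtain ⟨hW1, hW2⟩ := Finset.mem_filter.1 hW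
            exact Finset.mem_filter.2 ⟨(Finset.mem_sdiff.1 hW1).1, hW2⟩
          · have := hcon (Finset.mem_filter.2 ⟨hMG hUM, hUg⟩)
            exact (Finset.mem_sdiff.1 (Finset.mem_filter.1 this).1).2 hUM
        have := Finset.card_lt_card h3
        omega
    have h3 := (Finset.card_le_card hsub).trans (Finset.card_union_le _ _)
    have h4 := Nat.mul_le_mul_right (2 ^ t) h3
    rw [add_mul] at h4
    have h5 : (h + 1) * Fintype.card (V → Fin κ) =
      h * Fintype.card (V → Fin κ) + Fintype.card (V → Fin κ) := by ring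
    omega

end Pool.Agent.W2helper95.KC
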