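import Pool.Agent.W2helper95.KC.Sys
import Pool.Agent.W2helper95.ET.Num

/-!
# The inequality for cliques
-/

set_option autoImplicit false

open Finset

namespace Pool.Agent.W2helper95.KC

open Pool.Agent.W2helper95.ET (prs mem_prs Dis roth_pow)
open Pool.Agent.W2helper95.TS

theorem pos_lt {k g x i d : ℕ} (hx : x < g) (hi : i < k) (hd : d < g) : x + i * d < k * g := by
  have h1 : (i + 1) * g ≤ k * g := Nat.mul_le_mul_right _ hi
  have h2 : i * d ≤ i * g := Nat.mul_le_mul_left _ hd.le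
  have h3 : (i + 1) * g = i * g + g := by ring
  omega

/-- The inequality for a system of blocks. -/
theorem core {κ : ℕ} (hκ : 2 ≤ κ) {n g q : ℕ} {P : Finset ℕ} (hP : P ⊆ range g)
    (hap : ThreeAPFree (P : Set ℕ)) (hq : 0 < q) (hn : (κ + 1) * ((κ + 1) * g) * q ≤ n)
    {Ω : Type} [Fintype Ω] {p : Ω → ℝ} (hp : ∀ ω, 0 ≤ p ω) (hp1 : ∑ ω, p ω = 1)
    {C : Ω → Net (Sym2 (Fin n))} {D A s : ℕ} (hD : ∀ ω, AltN (C ω) D)
    (hA : ∀ ω, numThr (C ω) ≤ A) (hs : ∀ ω, (C ω).s ≤ s) {θ δ : ℝ}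
    (hyes : ∀ x, HasCl (κ + 1) x → θ + δ ≤ accProb p C x)
    (hno : ∀ x, ¬ HasCl (κ + 1) x → accProb p C x ≤ θ)
    {r : ℕ} (hr : 2 * N1 κ r ≤ 2 ^ r) (h1 : 4 * (((s : ℝ) + 1) * m0 κ r) ≤ δ * 2 ^ r) :
    3 / 4 * δ * (((g : ℝ) * P.card) * (q : ℝ) ^ (κ + 1)) ≤
      (q : ℝ) ^ (κ + 1) * D + ((g : ℝ) * P.card) * ((Lo κ r : ℝ) * A + m0 κ r * (q : ℝ) ^ κ) := by
  classical
  set k := κ + 1 with hk
  set G := k * g with hG
  set Bs : Finset (ℕ × ℕ) := range g ×ˢ P with hBs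
  have hBc : Fintype.card {b // b ∈ Bs} = g * P.card := by
    rw [Fintype.card_coe, hBs, Finset.card_product, Finset.card_range]
  set m := g * P.card with hm
  let e : Fin m ≃ {b // b ∈ Bs} := (Fintype.equivFinOfCardEq hBc).symm
  have hb : ∀ i : Fin m, (e i).val.1 < g ∧ (e i).val.2 ∈ P := by
    intro i
    have := Finset.mem_product.1 (e i).2
    exact ⟨Finset.mem_range.1 this.1, this.2⟩
  have hgr : ∀ i : Fin m, ∀ j : Fin k,
      (grps (prtN n q G) (posN n q G) k (e i).val j).card = q := by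
    intro i j
    have hlt : (e i).val.1 + j.val * (e i).val.2 < G :=
      pos_lt (hb i).1 j.isLt (Finset.mem_range.1 (hP (hb i).2))
    apply grpsN hq hlt
    have h2 : j.val * G + ((e i).val.1 + j.val * (e i).val.2) + 1 ≤ k * G := by
      have h3 : (j.val + 1) * G ≤ k * G := Nat.mul_le_mul_right _ j.isLt
      have h4 : (j.val + 1) * G = j.val * G + G := by ring
      omega
    calc _ ≤ k * G * q := Nat.mul_le_mul_right _ h2
      _ ≤ n := hn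
  have hmain := main_sum (κ := κ) (m := m)
    (E := fun i => EB (prtN n q G) (posN n q G) k (e i).val)
    (fun i p hp => EB_diag hp)
    (fun i j p hi hj => e.injective (Subtype.ext (EB_dis hi hj))) hκ
    (fun K hK hall => by
      obtain ⟨b, hb1, hb2, hb3⟩ := EB_cl (k := k) (by omega) hap (g := g) hK fun p hp => by
        obtain ⟨i, hi⟩ := hall p hp
        exact ⟨(e i).val, (hb i).1, (hb i).2, hi⟩
      have hmem : b ∈ Bs := by
        rw [hBs, Finset.mem_product, Finset.mem_range]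
        exact ⟨hb1, hb2⟩
      refine ⟨e.symm ⟨b, hmem⟩, ?_⟩
      simpa using hb3)
    (T := fun i => TB (prtN n q G) (posN n q G) k (e i).val)
    (fun i K hK => TB_sub hK) (τ := q ^ k) (Q := q ^ κ)
    (fun i => TB_card (hgr i))
    (fun i U hU => by
      have := TB_Q (hgr i) hU
      rw [hk, Nat.add_sub_cancel] at this
      exact this)
    hp hp1 hD hA hs hyes hno hr h1
  push_cast at hmain
  rw [hm] at hmain
  push_cast at hmain
  exact hmain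

/-! ### polynomial bounds -/

/-- the function is bounded by a polynomial -/
def PB (f : ℕ → ℕ) : Prop := ∃ C e : ℕ, ∀ r, 1 ≤ r → f r ≤ C * r ^ e

theorem PB.const (c : ℕ) : PB fun _ => c := ⟨c, 0, fun r _ => by simp⟩

theorem PB.id : PB fun r => r := ⟨1, 1, fun r _ => by simp⟩

theorem PB.add {f g : ℕ → ℕ} (hf : PB f) (hg : PB g) : PB fun r => f r + g r := by
  obtain ⟨C, e, h⟩ := hf
  obtain ⟨C', e', h'⟩ := hg
  refine ⟨C + C', e + e', fun r hr => ?_⟩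
  have h1 : r ^ e ≤ r ^ (e + e') := Nat.pow_le_pow_right hr (by omega)
  have h2 : r ^ e' ≤ r ^ (e + e') := Nat.pow_le_pow_right hr (by omega)
  calc f r + g r ≤ C * r ^ e + C' * r ^ e' := Nat.add_le_add (h r hr) (h' r hr)
    _ ≤ C * r ^ (e + e') + C' * r ^ (e + e') :=
        Nat.add_le_add (Nat.mul_le_mul_left _ h1) (Nat.mul_le_mul_left _ h2)
    _ = (C + C') * r ^ (e + e') := by ring

theorem PB.mul {f g : ℕ → ℕ} (hf : PB f) (hg : PB g) : PB fun r => f r * g r := by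
  obtain ⟨C, e, h⟩ := hf
  obtain ⟨C', e', h'⟩ := hg
  refine ⟨C * C', e + e', fun r hr => ?_⟩
  calc f r * g r ≤ (C * r ^ e) * (C' * r ^ e') := Nat.mul_le_mul (h r hr) (h' r hr)
    _ = C * C' * r ^ (e + e') := by ring

theorem PB.pow {f : ℕ → ℕ} (hf : PB f) (a : ℕ) : PB fun r => f r ^ a := by
  induction a with
  | zero => simpa using PB.const 1
  | succ a ih =>
    have : (fun r => f r ^ (a + 1)) = fun r => f r ^ a * f r := by
      funext r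
      exact pow_succ _ _
    rw [this]
    exact ih.mul hf

theorem pb_N1 (κ : ℕ) : PB (N1 κ) :=
  (PB.const _).mul ((PB.id.mul (PB.const _)).add (PB.const _))

theorem pb_m0 (κ : ℕ) : PB (m0 κ) :=
  ((PB.const 1).add ((pb_N1 κ).mul (PB.const _))).pow κ

theorem pb_hh (κ : ℕ) : PB (hh κ) := (PB.const _).mul (pb_m0 κ)

theorem pb_tt (κ : ℕ) : PB (tt κ) := (PB.id.mul (PB.const _)).add (pb_hh κ)

theorem pb_Np (κ : ℕ) : PB (Np κ) := (pb_hh κ).mul ((PB.const _).mul (pb_tt κ))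

theorem pb_SS (κ : ℕ) : PB (SS κ) :=
  ((PB.const 1).add ((pb_Np κ).mul (PB.const _))).pow (κ + 1)

theorem pb_Lo (κ : ℕ) : PB (Lo κ) := ((PB.const 1).add (pb_SS κ)).pow (κ + 1)

theorem PB.exp {f : ℕ → ℕ} (hf : PB f) : ∃ j0 : ℕ, ∀ j ≥ j0, f (2 * j) ≤ 2 ^ j := by
  obtain ⟨C, e, h⟩ := hf
  have h1 := tendsto_pow_const_div_const_pow_of_one_lt e (r := (2 : ℝ)) (by norm_num)
  have h2 : ∀ᶠ j : ℕ in Filter.atTop, (j : ℝ) ^ e / 2 ^ j < 1 / ((C : ℝ) * 2 ^ e + 1) :=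
    h1.eventually_lt_const (by positivity)
  obtain ⟨j0, hj0⟩ := Filter.eventually_atTop.1 h2
  refine ⟨j0 + 1, fun j hj => ?_⟩
  have h3 := hj0 j (by omega)
  have h4 := h (2 * j) (by omega)
  refine h4.trans ?_
  have h5 : (0 : ℝ) < 2 ^ j := by positivity
  rw [div_lt_div_iff₀ h5 (by positivity), one_mul] at h3
  have h6 : ((C * (2 * j) ^ e : ℕ) : ℝ) ≤ ((2 ^ j : ℕ) : ℝ) := by
    push_cast
    have h7 : (0 : ℝ) ≤ (j : ℝ) ^ e := by positivity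
    calc (C : ℝ) * (2 * j) ^ e = (j : ℝ) ^ e * (C * 2 ^ e) := by rw [mul_pow]; ring
      _ ≤ (j : ℝ) ^ e * (C * 2 ^ e + 1) := mul_le_mul_of_nonneg_left (by linarith) h7
      _ ≤ 2 ^ j := h3.le
  exact_mod_cast h6

theorem log_ge (s : ℕ) : 1 ≤ Nat.log 2 (s + 2) := Nat.log_pos (by norm_num) (by omega)

/-- the choice of the parameter `r` -/
theorem choice (κ : ℕ) : ∃ e : ℕ, ∃ C : ℝ, 0 < C ∧ ∀ δ : ℝ, 0 < δ → ∀ s L : ℕ, 1 ≤ L →
    s + 2 < 2 ^ (L + 1) → 1 / δ ≤ 2 ^ (L + 1) → ∃ r : ℕ,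
    2 * N1 κ r ≤ 2 ^ r ∧ 4 * (((s : ℝ) + 1) * m0 κ r) ≤ δ * 2 ^ r ∧
    (Lo κ r : ℝ) ≤ C * (L : ℝ) ^ e ∧ (m0 κ r : ℝ) ≤ C * (L : ℝ) ^ e := by
  obtain ⟨C, e, hC⟩ := (pb_Lo κ).add (pb_m0 κ)
  obtain ⟨j1, hj1⟩ := (pb_N1 κ).exp
  obtain ⟨j2, hj2⟩ := (pb_m0 κ).exp
  set d := j1 + j2 + 4 with hd
  refine ⟨e, (C : ℝ) * (2 * (d + 2)) ^ e + 1, by positivity, fun δ hδ s L hL1 hs hδL => ?_⟩
  have hL1' : (1 : ℝ) ≤ L := by exact_mod_cast hL1
  have hboth : ∀ a : ℕ, a ≤ C * (2 * (d + 2 * L)) ^ e →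
      (a : ℝ) ≤ ((C : ℝ) * (2 * (d + 2)) ^ e + 1) * (L : ℝ) ^ e := by
    intro a ha
    have h3 : ((2 * (d + 2 * L) : ℕ) : ℝ) ≤ 2 * (d + 2) * L := by
      push_cast
      have : (0 : ℝ) ≤ d := Nat.cast_nonneg _
      nlinarith
    calc (a : ℝ) ≤ ((C * (2 * (d + 2 * L)) ^ e : ℕ) : ℝ) := by exact_mod_cast ha
      _ = C * ((2 * (d + 2 * L) : ℕ) : ℝ) ^ e := by push_cast; ring
      _ ≤ C * (2 * (d + 2) * L) ^ e :=
          mul_le_mul_of_nonneg_left (pow_le_pow_left₀ (Nat.cast_nonneg _) h3 e)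
            (Nat.cast_nonneg _)
      _ = C * (2 * (d + 2)) ^ e * (L : ℝ) ^ e := by rw [mul_pow]; ring
      _ ≤ (C * (2 * (d + 2)) ^ e + 1) * (L : ℝ) ^ e :=
          mul_le_mul_of_nonneg_right (by linarith) (by positivity)
  have hsum : Lo κ (2 * (d + 2 * L)) + m0 κ (2 * (d + 2 * L)) ≤ C * (2 * (d + 2 * L)) ^ e :=
    hC (2 * (d + 2 * L)) (by omega)
  refine ⟨2 * (d + 2 * L), ?_, ?_, hboth _ (by omega), hboth _ (by omega)⟩
  · have h1 := hj1 (d + 2 * L) (by omega)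
    calc 2 * N1 κ (2 * (d + 2 * L)) ≤ 2 * 2 ^ (d + 2 * L) := Nat.mul_le_mul_left _ h1
      _ = 2 ^ (d + 2 * L + 1) := by ring
      _ ≤ 2 ^ (2 * (d + 2 * L)) := Nat.pow_le_pow_right (by norm_num) (by omega)
  · have h1 := hj2 (d + 2 * L) (by omega)
    have h1' : (m0 κ (2 * (d + 2 * L)) : ℝ) ≤ 2 ^ (d + 2 * L) := by exact_mod_cast h1
    have h2' : (s : ℝ) + 1 ≤ 2 ^ (L + 1) := by
      have : ((s + 2 : ℕ) : ℝ) < ((2 ^ (L + 1) : ℕ) : ℝ) := by exact_mod_cast hs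
      push_cast at this
      linarith
    have h3 : 8 * 2 ^ L ≤ δ * 2 ^ (d + 2 * L) := by
      have h4 : 1 ≤ δ * 2 ^ (L + 1) := by
        rw [div_le_iff₀ hδ] at hδL
        linarith
      have h5 : (16 : ℝ) ≤ 2 ^ d := by
        calc (16 : ℝ) = 2 ^ 4 := by norm_num
          _ ≤ 2 ^ d := pow_le_pow_right₀ (by norm_num) (by omega)
      have h6 : (0 : ℝ) < 2 ^ L := by positivity
      calc (8 : ℝ) * 2 ^ L ≤ 8 * 2 ^ L * (δ * 2 ^ (L + 1)) := by nlinarith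
        _ = δ * (16 * 2 ^ (2 * L)) := by rw [pow_succ, two_mul L, pow_add]; ring
        _ ≤ δ * (2 ^ d * 2 ^ (2 * L)) := by
            apply mul_le_mul_of_nonneg_left _ hδ.le
            exact mul_le_mul_of_nonneg_right h5 (by positivity)
        _ = _ := by rw [pow_add (2 : ℝ) d (2 * L)]
    calc 4 * (((s : ℝ) + 1) * m0 κ (2 * (d + 2 * L))) ≤ 4 * (2 ^ (L + 1) * 2 ^ (d + 2 * L)) := by
          apply mul_le_mul_of_nonneg_left _ (by norm_num)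
          exact mul_le_mul h2' h1' (Nat.cast_nonneg _) (by positivity)
      _ = (8 * 2 ^ L) * 2 ^ (d + 2 * L) := by ring
      _ ≤ (δ * 2 ^ (d + 2 * L)) * 2 ^ (d + 2 * L) := mul_le_mul_of_nonneg_right h3 (by positivity)
      _ = δ * 2 ^ (2 * (d + 2 * L)) := by ring

end Pool.Agent.W2helper95.KC
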