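import Pool.Agent.W2helper95.KC.Core

/-!
# The bounds for cliques
-/

set_option autoImplicit false

open Finset Filter

namespace Pool.Agent.W2helper95.KC

open Pool.Agent.W2helper95.ET (prs mem_prs Dis roth_pow)
open Pool.Agent.W2helper95.TS

/-- The random threshold circuit decides with gap `δ` whether a graph has a clique with `k`
vertices. -/
def Dec {n : ℕ} {Ω : Type} [Fintype Ω] (k : ℕ) (δ : ℝ) (p : Ω → ℝ)
    (C : Ω → Net (Sym2 (Fin n))) : Prop :=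
  (∀ ω, 0 ≤ p ω) ∧ ∑ ω, p ω = 1 ∧ ∃ θ : ℝ, ∀ x : Sym2 (Fin n) → Bool,
    (HasCl k x → θ + δ ≤ accProb p C x) ∧ (¬ HasCl k x → accProb p C x ≤ θ)

theorem num1' {B κ x : ℝ} (hB : 0 ≤ B) (hκ : 0 < κ) (hx : 1 ≤ x) :
    ∃ g : ℕ, 1 ≤ g ∧ B * x ≤ (g : ℝ) ^ (1 / κ) ∧ (g : ℝ) ≤ (B ^ κ + 1) * x ^ κ := by
  have hx0 : 0 ≤ x := by linarith
  refine ⟨⌊(B * x) ^ κ⌋₊ + 1, by omega, ?_, ?_⟩
  · have h1 : (B * x) ^ κ ≤ ((⌊(B * x) ^ κ⌋₊ + 1 : ℕ) : ℝ) := by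
      push_cast
      exact (Nat.lt_floor_add_one _).le
    calc B * x = ((B * x) ^ κ) ^ (1 / κ) := by
          rw [← Real.rpow_mul (by positivity), mul_one_div_cancel hκ.ne', Real.rpow_one]
      _ ≤ _ := Real.rpow_le_rpow (by positivity) h1 (by positivity)
  · push_cast
    have h2 : (⌊(B * x) ^ κ⌋₊ : ℝ) ≤ (B * x) ^ κ := Nat.floor_le (by positivity)
    have h3 : (B * x) ^ κ = B ^ κ * x ^ κ := Real.mul_rpow hB hx0
    have h4 : 1 ≤ x ^ κ := Real.one_le_rpow hx hκ.le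
    calc (⌊(B * x) ^ κ⌋₊ : ℝ) + 1 ≤ (B * x) ^ κ + x ^ κ := add_le_add h2 h4
      _ = (B ^ κ + 1) * x ^ κ := by rw [h3]; ring

theorem num3 {κ : ℕ} {q δ Bd A : ℝ} (hq : 1 ≤ q) (hδ : 0 < δ) (hBd : 0 ≤ Bd) (hA : 0 ≤ A)
    (h : δ / 2 * q ^ (κ + 1) ≤ Bd * (A + q ^ κ)) :
    q ^ (κ + 1) ≤ (1 + 4 * Bd / δ) ^ (κ + 1) * (A + 1) := by
  set z := 4 * Bd / δ with hz
  have hz0 : 0 ≤ z := by positivity
  have hBz : Bd = δ / 4 * z := by rw [hz]; field_simp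
  have h1z : 1 + z ≤ (1 + z) ^ (κ + 1) := by
    calc 1 + z = (1 + z) ^ 1 := (pow_one _).symm
      _ ≤ _ := pow_le_pow_right₀ (by linarith) (by omega)
  by_cases hqz : q ≤ z
  · calc q ^ (κ + 1) ≤ (1 + z) ^ (κ + 1) := pow_le_pow_left₀ (by linarith) (by linarith) _
      _ = (1 + z) ^ (κ + 1) * 1 := (mul_one _).symm
      _ ≤ _ := mul_le_mul_of_nonneg_left (by linarith) (by positivity)
  · push Not at hqz
    have h1 : Bd * q ^ κ ≤ δ / 4 * q ^ (κ + 1) := by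
      rw [hBz, pow_succ]
      have h2 : 0 ≤ q ^ κ := by positivity
      have h3 : z * q ^ κ ≤ q ^ κ * q := by
        rw [mul_comm]
        exact mul_le_mul_of_nonneg_left hqz.le h2
      calc δ / 4 * z * q ^ κ = δ / 4 * (z * q ^ κ) := by ring
        _ ≤ _ := mul_le_mul_of_nonneg_left h3 (by positivity)
    have h2 : δ / 4 * q ^ (κ + 1) ≤ δ / 4 * (z * A) := by
      calc δ / 4 * q ^ (κ + 1) ≤ Bd * A := by linarith
        _ = δ / 4 * (z * A) := by rw [hBz]; ring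
    have h3 : q ^ (κ + 1) ≤ z * A := le_of_mul_le_mul_left h2 (by positivity)
    calc q ^ (κ + 1) ≤ z * A := h3
      _ ≤ (1 + z) * (A + 1) := by nlinarith
      _ ≤ _ := mul_le_mul_of_nonneg_right h1z (by linarith)

/-- the logarithm in the bounds -/
theorem lg_facts (δ : ℝ) (s : ℕ) : 1 ≤ Nat.log 2 (s + 2 + ⌈1 / δ⌉₊) ∧
    s + 2 < 2 ^ (Nat.log 2 (s + 2 + ⌈1 / δ⌉₊) + 1) ∧
    1 / δ ≤ 2 ^ (Nat.log 2 (s + 2 + ⌈1 / δ⌉₊) + 1) := by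
  have h1 : s + 2 + ⌈1 / δ⌉₊ < 2 ^ (Nat.log 2 (s + 2 + ⌈1 / δ⌉₊) + 1) :=
    Nat.lt_pow_succ_log_self (by norm_num) _
  refine ⟨Nat.log_pos (by norm_num) (by omega), by omega, ?_⟩
  have h2 : ⌈1 / δ⌉₊ ≤ 2 ^ (Nat.log 2 (s + 2 + ⌈1 / δ⌉₊) + 1) := by omega
  have h3 : 1 / δ ≤ (⌈1 / δ⌉₊ : ℝ) := Nat.le_ceil _
  have h4 : (⌈1 / δ⌉₊ : ℝ) ≤ ((2 ^ (Nat.log 2 (s + 2 + ⌈1 / δ⌉₊) + 1) : ℕ) : ℝ) := by
    exact_mod_cast h2
  push_cast at h4
  exact h3.trans h4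

/-- The bound for cliques. -/
theorem fin_ineq {k : ℕ} (hk : 3 ≤ k) : ∃ e : ℕ, ∀ ε : ℝ, 0 < ε → ∃ c : ℝ, 0 < c ∧
    ∀ (δ : ℝ) (n D A s : ℕ) (Ω : Type) [Fintype Ω] (p : Ω → ℝ) (C : Ω → Net (Sym2 (Fin n))),
    0 < δ → δ ≤ 1 →
    Dec k δ p C → (∀ ω, AltN (C ω) D) → (∀ ω, numThr (C ω) ≤ A) → (∀ ω, (C ω).s ≤ s) →
    (δ ^ (3 / 2 + ε) * (n : ℝ)) ^ k ≤ c * ((D : ℝ) + 1) ^ ((1 / 2 + ε) * k) *
      (((A : ℝ) + 1) * (Nat.log 2 (s + 2 + ⌈1 / δ⌉₊) : ℝ) ^ e) := by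
  obtain ⟨κ, rfl⟩ : ∃ κ, k = κ + 1 := ⟨k - 1, by omega⟩
  have hκ : 2 ≤ κ := by omega
  obtain ⟨e0, C0, hC0, hch⟩ := choice κ
  refine ⟨e0 * (κ + 1), fun ε hε => ?_⟩
  set μ : ℝ := 1 / 2 + ε with hμ
  have hμ0 : 0 < μ := by positivity
  set η : ℝ := 2 - 1 / μ with hη
  have hη0 : 0 < η := by
    rw [hη]
    have : 1 / μ < 2 := by
      rw [div_lt_iff₀ hμ0, hμ]
      linarith
    linarith
  set B1 : ℝ := 4 * Real.exp (4 / η) with hB1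
  have hB10 : 0 < B1 := by positivity
  refine ⟨(2 * ((κ : ℝ) + 1) ^ 2) ^ (κ + 1) * (B1 ^ μ + 1) ^ (κ + 1) *
    (1 + 4 * C0) ^ (κ + 1), by positivity, ?_⟩
  intro δ n D A s Ω _ p C hδ hδ1 hdec hD hA hs
  obtain ⟨hp, hp1, θ, hθ⟩ := hdec
  obtain ⟨hl1, hl2, hl3⟩ := lg_facts δ s
  obtain ⟨r, hr1, hr2, hr3, hr4⟩ := hch δ hδ s _ hl1 hl2 hl3
  set L := Nat.log 2 (s + 2 + ⌈1 / δ⌉₊) with hL
  have hL1 : (1 : ℝ) ≤ L := by exact_mod_cast hl1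
  have hD0 : (0 : ℝ) ≤ D := Nat.cast_nonneg _
  have hA0 : (0 : ℝ) ≤ A := Nat.cast_nonneg _
  set x : ℝ := (D : ℝ) + 1 with hx
  have hx1 : 1 ≤ x := by rw [hx]; linarith
  set B : ℝ := B1 / δ with hB
  have hB0 : 0 < B := by positivity
  obtain ⟨g, hg, hg1, hg2⟩ := num1' hB0.le hμ0 hx1
  obtain ⟨P, hPs, hPc, hPap⟩ := rothNumberNat_spec g
  set m : ℝ := (g : ℝ) * rothNumberNat g with hm
  have hmbig : x ≤ δ / 4 * m := by
    have h1 := roth_pow hη0 hg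
    have e1 : 2 - η = 1 / μ := by rw [hη]; ring
    rw [e1] at h1
    have h2 : Real.exp (-(4 / η)) * (B * x) ≤ m :=
      (mul_le_mul_of_nonneg_left hg1 (Real.exp_pos _).le).trans h1
    have h3 : Real.exp (-(4 / η)) * (B * x) = 4 / δ * x := by
      rw [hB, hB1, show Real.exp (-(4 / η)) * (4 * Real.exp (4 / η) / δ * x) =
        4 / δ * x * (Real.exp (-(4 / η)) * Real.exp (4 / η)) by ring, ← Real.exp_add]
      simp
    rw [h3] at h2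
    calc x = δ / 4 * (4 / δ * x) := by field_simp
      _ ≤ δ / 4 * m := mul_le_mul_of_nonneg_left h2 (by positivity)
  have hm0 : 0 < m := by
    by_contra hcon
    push Not at hcon
    have : δ / 4 * m ≤ 0 := mul_nonpos_of_nonneg_of_nonpos (by positivity) hcon
    linarith
  set Bd : ℝ := C0 * (L : ℝ) ^ e0 with hBd
  have hBd0 : 0 ≤ Bd := by positivity
  set q := n / ((κ + 1) * ((κ + 1) * g)) with hq
  have hkg : 0 < (κ + 1) * ((κ + 1) * g) := Nat.mul_pos (by omega) (Nat.mul_pos (by omega) hg)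
  -- the key inequality
  have hkey : ∃ y : ℝ, 0 ≤ y ∧ (n : ℝ) ≤ 2 * ((κ : ℝ) + 1) ^ 2 * g * y ∧
      y ^ (κ + 1) ≤ (1 + 4 * Bd / δ) ^ (κ + 1) * ((A : ℝ) + 1) := by
    have hnq : n < (q + 1) * ((κ + 1) * ((κ + 1) * g)) := by
      have h1 := Nat.div_add_mod n ((κ + 1) * ((κ + 1) * g))
      have h2 := Nat.mod_lt n hkg
      rw [← hq] at h1
      have h3 : (q + 1) * ((κ + 1) * ((κ + 1) * g)) =
        (κ + 1) * ((κ + 1) * g) * q + (κ + 1) * ((κ + 1) * g) := by ring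
      omega
    have hnq' : (n : ℝ) ≤ ((q : ℝ) + 1) * (((κ : ℝ) + 1) * (((κ : ℝ) + 1) * g)) := by
      exact_mod_cast hnq.le
    have hg0 : (0 : ℝ) ≤ g := Nat.cast_nonneg _
    rcases Nat.eq_zero_or_pos q with h0 | h0
    · refine ⟨1, zero_le_one, ?_, ?_⟩
      · rw [h0] at hnq'
        have : (0 : ℝ) ≤ ((κ : ℝ) + 1) ^ 2 * g := by positivity
        calc (n : ℝ) ≤ _ := hnq'
          _ = ((κ : ℝ) + 1) ^ 2 * g := by push_cast; ring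
          _ ≤ _ := by linarith
      · rw [one_pow]
        have h1 : (1 : ℝ) ≤ (1 + 4 * Bd / δ) ^ (κ + 1) := one_le_pow₀ (by
          have : 0 ≤ 4 * Bd / δ := by positivity
          linarith)
        nlinarith
    · have hq1 : (1 : ℝ) ≤ q := by exact_mod_cast h0
      refine ⟨q, by linarith, ?_, ?_⟩
      · calc (n : ℝ) ≤ _ := hnq'
          _ = ((κ : ℝ) + 1) ^ 2 * g * (q + 1) := by ring
          _ ≤ ((κ : ℝ) + 1) ^ 2 * g * (2 * q) :=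
              mul_le_mul_of_nonneg_left (by linarith) (by positivity)
          _ = _ := by ring
      · apply num3 hq1 hδ hBd0 hA0
        have hcore := core hκ hPs hPap h0 (Nat.mul_div_le n _) hp hp1 hD hA hs
          (fun x hx => (hθ x).1 hx) (fun x hx => (hθ x).2 hx) hr1 hr2
        rw [hPc, ← hm] at hcore
        have hqk : (0 : ℝ) ≤ (q : ℝ) ^ (κ + 1) := by positivity
        have h1 : (q : ℝ) ^ (κ + 1) * D ≤ (q : ℝ) ^ (κ + 1) * (δ / 4 * m) :=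
          mul_le_mul_of_nonneg_left (by linarith) hqk
        have h2 : (Lo κ r : ℝ) * A + m0 κ r * (q : ℝ) ^ κ ≤ Bd * (A + (q : ℝ) ^ κ) := by
          rw [mul_add]
          exact add_le_add (mul_le_mul_of_nonneg_right hr3 hA0)
            (mul_le_mul_of_nonneg_right hr4 (by positivity))
        have h3 : m * (δ / 2 * (q : ℝ) ^ (κ + 1)) ≤ m * (Bd * (A + (q : ℝ) ^ κ)) := by
          have h4 := mul_le_mul_of_nonneg_left h2 hm0.le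
          linarith
        exact le_of_mul_le_mul_left h3 hm0
  obtain ⟨y, hy0, hy1, hy2⟩ := hkey
  have hg0 : (0 : ℝ) ≤ g := Nat.cast_nonneg _
  have h1δ : 1 ≤ 1 / δ := by rw [le_div_iff₀ hδ]; linarith
  have hz : 1 + 4 * Bd / δ ≤ (1 + 4 * C0) * (1 / δ) * (L : ℝ) ^ e0 := by
    have h1 : (1 : ℝ) ≤ (L : ℝ) ^ e0 := one_le_pow₀ hL1
    have h2 : (1 : ℝ) ≤ 1 / δ * (L : ℝ) ^ e0 := by nlinarith
    rw [hBd]
    calc 1 + 4 * (C0 * (L : ℝ) ^ e0) / δ = 1 + 4 * C0 * (1 / δ) * (L : ℝ) ^ e0 := by ring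
      _ ≤ 1 / δ * (L : ℝ) ^ e0 + 4 * C0 * (1 / δ) * (L : ℝ) ^ e0 := by linarith
      _ = _ := by ring
  have hδμ : 1 ≤ (1 / δ) ^ μ := Real.one_le_rpow h1δ hμ0.le
  have hBμ : B ^ μ + 1 ≤ (B1 ^ μ + 1) * (1 / δ) ^ μ := by
    have h1 : B ^ μ = B1 ^ μ * (1 / δ) ^ μ := by
      rw [hB, div_eq_mul_one_div, Real.mul_rpow hB10.le (by positivity)]
    rw [h1]
    linarith
  have hgk : (g : ℝ) ^ (κ + 1) ≤ ((B1 ^ μ + 1) * (1 / δ) ^ μ) ^ (κ + 1) *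
      x ^ (μ * ((κ + 1 : ℕ) : ℝ)) := by
    calc (g : ℝ) ^ (κ + 1) ≤ ((B1 ^ μ + 1) * (1 / δ) ^ μ * x ^ μ) ^ (κ + 1) := by
          apply pow_le_pow_left₀ hg0 (hg2.trans _)
          exact mul_le_mul_of_nonneg_right hBμ (by positivity)
      _ = _ := by rw [mul_pow, ← Real.rpow_natCast (x ^ μ), ← Real.rpow_mul (by linarith)]
  have hδz : δ ^ (3 / 2 + ε) * ((1 / δ) ^ μ * (1 / δ)) = 1 := by
    have h1 : (1 / δ) ^ μ * (1 / δ) = (1 / δ) ^ (3 / 2 + ε) := by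
      rw [show (3 / 2 + ε : ℝ) = μ + 1 by rw [hμ]; ring, Real.rpow_add_one (by positivity)]
    rw [h1, ← Real.mul_rpow hδ.le (by positivity), mul_one_div_cancel hδ.ne', Real.one_rpow]
  have hmain : (n : ℝ) ^ (κ + 1) ≤ ((1 / δ) ^ μ * (1 / δ)) ^ (κ + 1) *
      ((2 * ((κ : ℝ) + 1) ^ 2) ^ (κ + 1) * (B1 ^ μ + 1) ^ (κ + 1) * (1 + 4 * C0) ^ (κ + 1) *
        x ^ (μ * ((κ + 1 : ℕ) : ℝ)) * (((A : ℝ) + 1) * (L : ℝ) ^ (e0 * (κ + 1)))) := by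
    calc (n : ℝ) ^ (κ + 1) ≤ (2 * ((κ : ℝ) + 1) ^ 2 * g * y) ^ (κ + 1) :=
        pow_le_pow_left₀ (Nat.cast_nonneg _) hy1 _
    _ = (2 * ((κ : ℝ) + 1) ^ 2) ^ (κ + 1) * (g : ℝ) ^ (κ + 1) * y ^ (κ + 1) := by
        rw [mul_pow, mul_pow]
    _ ≤ (2 * ((κ : ℝ) + 1) ^ 2) ^ (κ + 1) *
          (((B1 ^ μ + 1) * (1 / δ) ^ μ) ^ (κ + 1) * x ^ (μ * ((κ + 1 : ℕ) : ℝ))) *
          (((1 + 4 * C0) * (1 / δ) * (L : ℝ) ^ e0) ^ (κ + 1) * ((A : ℝ) + 1)) := by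
        apply mul_le_mul _ _ (by positivity) (by positivity)
        · exact mul_le_mul_of_nonneg_left hgk (by positivity)
        · refine hy2.trans (mul_le_mul_of_nonneg_right (pow_le_pow_left₀ ?_ hz _) (by linarith))
          have : 0 ≤ 4 * Bd / δ := by positivity
          linarith
    _ = _ := by
        rw [mul_pow (B1 ^ μ + 1), mul_pow ((1 + 4 * C0) * (1 / δ)), mul_pow (1 + 4 * C0),
          mul_pow ((1 / δ) ^ μ) (1 / δ), ← pow_mul]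
        ring
  rw [mul_pow]
  have hz0 : 0 ≤ (δ ^ (3 / 2 + ε)) ^ (κ + 1) := by positivity
  calc (δ ^ (3 / 2 + ε)) ^ (κ + 1) * (n : ℝ) ^ (κ + 1) ≤ (δ ^ (3 / 2 + ε)) ^ (κ + 1) *
      (((1 / δ) ^ μ * (1 / δ)) ^ (κ + 1) * _) := mul_le_mul_of_nonneg_left hmain hz0
    _ = _ := by rw [← mul_assoc, ← mul_pow, hδz, one_pow, one_mul]

theorem numThr_le {I : Type} (C : Net I) : numThr C ≤ C.s := by
  unfold numThr
  calc _ ≤ (Set.univ : Set (Fin C.s)).ncard := Set.ncard_le_ncard (Set.subset_univ _)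
    _ = C.s := by rw [Set.ncard_univ, Nat.card_eq_fintype_card, Fintype.card_fin]

/-- a power of the logarithm is at most the argument, up to a constant -/
theorem log_pow_le (e : ℕ) : ∃ c : ℝ, 0 < c ∧ ∀ s : ℕ,
    (Nat.log 2 (s + 2) : ℝ) ^ e ≤ c * ((s : ℝ) + 2) := by
  set τ : ℝ := 1 / ((e : ℝ) + 1) with hτ
  have hτ0 : 0 < τ := by positivity
  have hl2 : 0 < Real.log 2 := Real.log_pos (by norm_num)
  refine ⟨(1 / (τ * Real.log 2)) ^ e, by positivity, fun s => ?_⟩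
  have hs0 : (0 : ℝ) ≤ (s : ℝ) + 2 := by positivity
  have hs1 : (1 : ℝ) ≤ (s : ℝ) + 2 := by
    have : (0 : ℝ) ≤ s := Nat.cast_nonneg _
    linarith
  have h1 : (Nat.log 2 (s + 2) : ℝ) ≤ Real.logb 2 ((s : ℝ) + 2) := by
    have := Real.natLog_le_logb (s + 2) 2
    push_cast at this
    exact this
  have h2 : Real.logb 2 ((s : ℝ) + 2) ≤ (1 / (τ * Real.log 2)) * ((s : ℝ) + 2) ^ τ := by
    rw [Real.logb, div_le_iff₀ hl2]
    calc Real.log ((s : ℝ) + 2) ≤ ((s : ℝ) + 2) ^ τ / τ := Real.log_le_rpow_div hs0 hτ0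
      _ = _ := by field_simp
  calc (Nat.log 2 (s + 2) : ℝ) ^ e ≤ ((1 / (τ * Real.log 2)) * ((s : ℝ) + 2) ^ τ) ^ e :=
        pow_le_pow_left₀ (Nat.cast_nonneg _) (h1.trans h2) e
    _ = (1 / (τ * Real.log 2)) ^ e * ((s : ℝ) + 2) ^ (τ * e) := by
        rw [mul_pow, ← Real.rpow_natCast (((s : ℝ) + 2) ^ τ), ← Real.rpow_mul hs0]
    _ ≤ (1 / (τ * Real.log 2)) ^ e * ((s : ℝ) + 2) ^ (1 : ℝ) := by
        apply mul_le_mul_of_nonneg_left _ (by positivity)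
        apply Real.rpow_le_rpow_of_exponent_le hs1
        rw [hτ, div_mul_eq_mul_div, one_mul, div_le_one (by positivity)]
        linarith
    _ = _ := by rw [Real.rpow_one]

/-- The bound with the number of all gates. -/
theorem fin_ineq' {k : ℕ} (hk : 3 ≤ k) (ε : ℝ) (hε : 0 < ε) : ∃ c : ℝ, 0 < c ∧
    ∀ (δ : ℝ) (n D s : ℕ) (Ω : Type) [Fintype Ω] (p : Ω → ℝ) (C : Ω → Net (Sym2 (Fin n))),
    0 < δ → δ ≤ 1 → Dec k δ p C → (∀ ω, AltN (C ω) D) → (∀ ω, (C ω).s ≤ s) →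
    (δ ^ (3 / 2 + ε) * (n : ℝ)) ^ k ≤
      c * ((D : ℝ) + 1) ^ ((1 / 2 + ε) * k) * (((s : ℝ) + 2) ^ 2 * (1 / δ)) := by
  obtain ⟨e, h⟩ := fin_ineq hk
  obtain ⟨c, hc, h⟩ := h ε hε
  obtain ⟨c', hc', h'⟩ := log_pow_le e
  refine ⟨c * (c' * 2), by positivity, ?_⟩
  intro δ n D s Ω _ p C hδ hδ1 hdec hD hs
  have h1 := h δ n D s s Ω p C hδ hδ1 hdec hD (fun ω => (numThr_le _).trans (hs ω)) hs
  have hs0 : (0 : ℝ) ≤ s := Nat.cast_nonneg _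
  have hD0 : (0 : ℝ) ≤ (D : ℝ) := Nat.cast_nonneg _
  have h1δ : 1 ≤ 1 / δ := by rw [le_div_iff₀ hδ]; linarith
  have hL : (Nat.log 2 (s + 2 + ⌈1 / δ⌉₊) : ℝ) ^ e ≤ c' * (2 * (((s : ℝ) + 2) * (1 / δ))) := by
    have h2 := h' (s + ⌈1 / δ⌉₊)
    rw [show s + ⌈1 / δ⌉₊ + 2 = s + 2 + ⌈1 / δ⌉₊ by ring] at h2
    refine h2.trans (mul_le_mul_of_nonneg_left ?_ hc'.le)
    have h3 : (⌈1 / δ⌉₊ : ℝ) < 1 / δ + 1 := Nat.ceil_lt_add_one (by positivity)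
    push_cast
    set t := 1 / δ with ht
    nlinarith
  refine h1.trans ?_
  calc c * ((D : ℝ) + 1) ^ ((1 / 2 + ε) * k) *
        (((s : ℝ) + 1) * (Nat.log 2 (s + 2 + ⌈1 / δ⌉₊) : ℝ) ^ e)
      ≤ c * ((D : ℝ) + 1) ^ ((1 / 2 + ε) * k) *
        (((s : ℝ) + 2) * (c' * (2 * (((s : ℝ) + 2) * (1 / δ))))) := by
        apply mul_le_mul_of_nonneg_left _ (by positivity)
        exact mul_le_mul (by linarith) hL (by positivity) (by positivity)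
    _ = _ := by ring

/-- The asymptotic form. -/
theorem asym {ε : ℝ} (hε : 0 < ε) : ∃ α : ℝ, 0 < α ∧ ∀ f g : ℕ → ℝ,
    Tendsto (fun k : ℕ => g k / k) atTop (nhds 0) →
    ∀ᶠ k : ℕ in atTop, ∀ᶠ n : ℕ in atTop, ∀ (D s : ℕ) (Ω : Type) [Fintype Ω] (p : Ω → ℝ)
      (C : Ω → Net (Sym2 (Fin n))), (D : ℝ) ≤ (n : ℝ) ^ (2 - ε) →
      (s : ℝ) ≤ f k * (n : ℝ) ^ g k → Dec k ((n : ℝ) ^ (-α)) p C → (∀ ω, AltN (C ω) D) →
      (∀ ω, (C ω).s ≤ s) → False := by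
  -- we may assume that ε is small
  set ε' := min ε 1 with hε'
  have hε'0 : 0 < ε' := lt_min hε one_pos
  have hε'1 : ε' ≤ 1 := min_le_right _ _
  have hε'ε : ε' ≤ ε := min_le_left _ _
  refine ⟨ε' / 48, by positivity, ?_⟩
  intro f g hg
  have hgk : ∀ᶠ k : ℕ in atTop, g k / k < ε' / 32 := hg.eventually_lt_const (by positivity)
  filter_upwards [hgk, eventually_ge_atTop 3] with k hk1 hk3
  have hk0 : (0 : ℝ) < k := by exact_mod_cast (by omega : 0 < k)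
  have hk3' : (3 : ℝ) ≤ k := by exact_mod_cast hk3
  have hgk' : g k ≤ ε' / 32 * k := by
    rw [div_lt_iff₀ hk0] at hk1
    exact hk1.le
  obtain ⟨c, hc, h⟩ := fin_ineq' hk3 (ε' / 8) (by positivity)
  set F : ℝ := |f k| + 2 with hF
  have hF0 : 0 < F := by positivity
  -- the constant
  set K : ℝ := c * 2 ^ ((1 / 2 + ε' / 8) * k) * F ^ 2 with hK
  have hK0 : 0 < K := by positivity
  have hlim : Tendsto (fun n : ℕ => (n : ℝ) ^ (ε' / 8 * k)) atTop atTop :=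
    (tendsto_rpow_atTop (by positivity)).comp tendsto_natCast_atTop_atTop
  filter_upwards [hlim.eventually_gt_atTop K, eventually_ge_atTop 1] with n hn1 hn2
  intro D s Ω _ p C hD hs hdec halt hsz
  have hn : (1 : ℝ) ≤ n := by exact_mod_cast hn2
  have hn0 : (0 : ℝ) < n := by linarith
  set δ : ℝ := (n : ℝ) ^ (-(ε' / 48)) with hδ
  have hδ0 : 0 < δ := by positivity
  have hδ1 : δ ≤ 1 := Real.rpow_le_one_of_one_le_of_nonpos hn (by linarith)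
  have h1 := h δ n D s Ω p C hδ0 hδ1 hdec halt hsz
  -- the alternations
  have hD1 : (D : ℝ) + 1 ≤ 2 * (n : ℝ) ^ (2 - ε') := by
    have e1 : (n : ℝ) ^ (2 - ε) ≤ (n : ℝ) ^ (2 - ε') :=
      Real.rpow_le_rpow_of_exponent_le hn (by linarith)
    have e2 : 1 ≤ (n : ℝ) ^ (2 - ε') := Real.one_le_rpow hn (by linarith)
    linarith
  have hD2 : ((D : ℝ) + 1) ^ ((1 / 2 + ε' / 8) * k) ≤
      2 ^ ((1 / 2 + ε' / 8) * k) * (n : ℝ) ^ ((1 - ε' / 4) * k) := by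
    have hD0 : (0 : ℝ) ≤ (D : ℝ) := Nat.cast_nonneg _
    calc ((D : ℝ) + 1) ^ ((1 / 2 + ε' / 8) * k)
        ≤ (2 * (n : ℝ) ^ (2 - ε')) ^ ((1 / 2 + ε' / 8) * k) :=
          Real.rpow_le_rpow (by linarith) hD1 (by positivity)
      _ = 2 ^ ((1 / 2 + ε' / 8) * k) * (n : ℝ) ^ ((2 - ε') * ((1 / 2 + ε' / 8) * k)) := by
          rw [Real.mul_rpow (by norm_num) (by positivity), ← Real.rpow_mul hn0.le]
      _ ≤ _ := by
          apply mul_le_mul_of_nonneg_left _ (by positivity)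
          apply Real.rpow_le_rpow_of_exponent_le hn
          have : (2 - ε') * ((1 / 2 + ε' / 8)) ≤ 1 - ε' / 4 := by nlinarith
          nlinarith
  -- the size
  have hs1 : (s : ℝ) + 2 ≤ F * (n : ℝ) ^ (ε' / 32 * k) := by
    have e1 : (n : ℝ) ^ g k ≤ (n : ℝ) ^ (ε' / 32 * k) :=
      Real.rpow_le_rpow_of_exponent_le hn hgk'
    have e2 : 1 ≤ (n : ℝ) ^ (ε' / 32 * k) := Real.one_le_rpow hn (by positivity)
    have e3 : f k * (n : ℝ) ^ g k ≤ |f k| * (n : ℝ) ^ (ε' / 32 * k) := by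
      have e4 : f k * (n : ℝ) ^ g k ≤ |f k| * (n : ℝ) ^ g k :=
        mul_le_mul_of_nonneg_right (le_abs_self _) (by positivity)
      exact e4.trans (mul_le_mul_of_nonneg_left e1 (abs_nonneg _))
    calc (s : ℝ) + 2 ≤ |f k| * (n : ℝ) ^ (ε' / 32 * k) + 2 * (n : ℝ) ^ (ε' / 32 * k) := by
          linarith
      _ = _ := by rw [hF]; ring
  have hs2 : ((s : ℝ) + 2) ^ 2 ≤ F ^ 2 * (n : ℝ) ^ (ε' / 16 * k) := by
    calc ((s : ℝ) + 2) ^ 2 ≤ (F * (n : ℝ) ^ (ε' / 32 * k)) ^ 2 :=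
          pow_le_pow_left₀ (by positivity) hs1 2
      _ = F ^ 2 * (n : ℝ) ^ (ε' / 16 * k) := by
          rw [mul_pow, ← Real.rpow_natCast ((n : ℝ) ^ (ε' / 32 * k)), ← Real.rpow_mul hn0.le]
          congr 2
          push_cast
          ring
  -- the gap
  have hδinv : 1 / δ = (n : ℝ) ^ (ε' / 48) := by
    rw [hδ, Real.rpow_neg hn0.le, one_div, inv_inv]
  have hδk : (δ ^ (3 / 2 + ε' / 8)) ^ k = (n : ℝ) ^ (-(ε' / 48) * (3 / 2 + ε' / 8) * k) := by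
    rw [hδ, ← Real.rpow_mul hn0.le, ← Real.rpow_natCast, ← Real.rpow_mul hn0.le]
  -- together
  have h2 : (n : ℝ) ^ (-(ε' / 48) * (3 / 2 + ε' / 8) * k + k) ≤
      K * (n : ℝ) ^ ((1 - ε' / 4) * k + (ε' / 16 * k + ε' / 48)) := by
    rw [Real.rpow_add hn0, Real.rpow_add hn0, Real.rpow_add hn0, ← hδk, ← hδinv,
      Real.rpow_natCast, ← mul_pow]
    calc _ ≤ _ := h1
      _ ≤ c * (2 ^ ((1 / 2 + ε' / 8) * k) * (n : ℝ) ^ ((1 - ε' / 4) * k)) *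
            (F ^ 2 * (n : ℝ) ^ (ε' / 16 * k) * (1 / δ)) := by
          apply mul_le_mul _ _ (by positivity) (by positivity)
          · exact mul_le_mul_of_nonneg_left hD2 hc.le
          · exact mul_le_mul_of_nonneg_right hs2 (by positivity)
      _ = _ := by rw [hK]; ring
  have h3 : (n : ℝ) ^ (ε' / 8 * k) * (n : ℝ) ^ ((1 - ε' / 4) * k + (ε' / 16 * k + ε' / 48)) ≤
      (n : ℝ) ^ (-(ε' / 48) * (3 / 2 + ε' / 8) * k + k) := by
    rw [← Real.rpow_add hn0]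
    apply Real.rpow_le_rpow_of_exponent_le hn
    have e1 : ε' / 48 * (3 / 2 + ε' / 8) * k ≤ ε' / 48 * (13 / 8) * k := by
      apply mul_le_mul_of_nonneg_right _ hk0.le
      apply mul_le_mul_of_nonneg_left _ (by positivity)
      linarith
    nlinarith [mul_pos hε'0 hk0, mul_le_mul_of_nonneg_left hk3' hε'0.le]
  have h4 : 0 < (n : ℝ) ^ ((1 - ε' / 4) * k + (ε' / 16 * k + ε' / 48)) := by positivity
  have h5 := le_of_mul_le_mul_right (h3.trans h2) h4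
  linarith

end Pool.Agent.W2helper95.KC
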