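import Pool.Agent.W2helper95.KC.Close

/-!
# The cliques which are lost by the approximation of a threshold gate
-/

set_option autoImplicit false

open Finset

namespace Pool.Agent.W2helper95.KC

variable {V : Type} [DecidableEq V] [Fintype V] {κ : ℕ}

/-- the number of rainbow sets which force the gate -/
def hh (κ r : ℕ) : ℕ := 2 ^ (κ + 1) * m0 κ r

/-- the exponent -/
def tt (κ r : ℕ) : ℕ := r * (κ + 1) + hh κ r

/-- the number of the petals -/
def Np (κ r : ℕ) : ℕ := hh κ r * (κ ^ κ * tt κ r)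

/-- the number of the choices in one step -/
def SS (κ r : ℕ) : ℕ := (1 + Np κ r * (κ + 1)) ^ (κ + 1)

/-- the bound for the number of the lost cliques -/
def Lo (κ r : ℕ) : ℕ := (1 + SS κ r) ^ (κ + 1)

section

variable {ι : Type} (F : Finset ι) (A : ι → Finset (Finset V)) (w : ι → ℝ) (θ : ℝ)

open Classical in
/-- the weight of the approximators which accept the set `K` -/
noncomputable def wK (K : Finset V) : ℝ := ∑ a ∈ F with accK (A a) K, w a

open Classical in
/-- the weight of the approximators which accept the colouring `g` -/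
noncomputable def wG (g : V → Fin κ) : ℝ := ∑ a ∈ F with accG (A a) g, w a

open Classical in
/-- the additional weight of the set `U` -/
noncomputable def marg (V0 U : Finset V) : ℝ := ∑ a ∈ F with (¬ accK (A a) V0 ∧ U ∈ A a), w a

/-- the approximated gate -/
def fT (κ : ℕ) : (V → Fin κ) → Prop := fun g => θ ≤ wG F A w g

variable {F A w θ}

theorem wK_le_wG (hw : ∀ a ∈ F, 0 ≤ w a) {g : V → Fin κ} {V0 : Finset V} (hg : Rb g V0) :
    wK F A w V0 ≤ wG F A w g := by
  classical
  apply Finset.sum_le_sum_of_subset_of_nonneg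
  · intro a ha
    obtain ⟨h1, U, hU, hUV⟩ := Finset.mem_filter.1 ha
    exact Finset.mem_filter.2 ⟨h1, U, hU, hg.mono hUV⟩
  · intro a ha _
    exact hw a (Finset.mem_filter.1 ha).1

/-- many rainbow sets of large additional weight force the gate -/
theorem weight {m : ℕ} (hm : 0 < m) (hw : ∀ a ∈ F, 0 ≤ w a) (hA : ∀ a ∈ F, (A a).card ≤ m)
    {g : V → Fin κ} {V0 : Finset V} (hg : Rb g V0) (hrem : 0 < θ - wK F A w V0)
    {G : Finset (Finset V)} (hG : ∀ U ∈ G, Rb g U)
    (hmarg : ∀ U ∈ G, (θ - wK F A w V0) / 2 ^ (κ + 1) ≤ marg F A w V0 U)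
    (hc : 2 ^ (κ + 1) * m ≤ G.card) : θ ≤ wG F A w g := by
  classical
  have hmR : (0 : ℝ) < m := by exact_mod_cast hm
  set X : ℝ := ∑ a ∈ F with (¬ accK (A a) V0 ∧ accG (A a) g), w a with hX
  have h1 : wK F A w V0 + X ≤ wG F A w g := by
    unfold wK wG
    rw [hX, ← Finset.sum_union]
    · apply Finset.sum_le_sum_of_subset_of_nonneg
      · intro a ha
        rcases Finset.mem_union.1 ha with ha | ha
        · obtain ⟨h1, U, hU, hUV⟩ := Finset.mem_filter.1 ha
          exact Finset.mem_filter.2 ⟨h1, U, hU, hg.mono hUV⟩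
        · obtain ⟨h1, h2, h3⟩ := Finset.mem_filter.1 ha
          exact Finset.mem_filter.2 ⟨h1, h3⟩
      · intro a ha _
        exact hw a (Finset.mem_filter.1 ha).1
    · rw [Finset.disjoint_left]
      intro a ha ha'
      exact (Finset.mem_filter.1 ha').2.1 (Finset.mem_filter.1 ha).2
  have h2 : ∑ U ∈ G, marg F A w V0 U ≤ X * m := by
    unfold marg
    calc ∑ U ∈ G, ∑ a ∈ F with (¬ accK (A a) V0 ∧ U ∈ A a), w a
        = ∑ U ∈ G, ∑ a ∈ F, if (¬ accK (A a) V0 ∧ U ∈ A a) then w a else 0 := by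
          refine Finset.sum_congr rfl fun U _ => ?_
          rw [Finset.sum_filter]
      _ = ∑ a ∈ F, ∑ U ∈ G, if (¬ accK (A a) V0 ∧ U ∈ A a) then w a else 0 := Finset.sum_comm
      _ ≤ ∑ a ∈ F, if (¬ accK (A a) V0 ∧ accG (A a) g) then w a * m else 0 := by
          refine Finset.sum_le_sum fun a ha => ?_
          rw [← Finset.sum_filter, Finset.sum_const, nsmul_eq_mul]
          by_cases hcond : ¬ accK (A a) V0 ∧ accG (A a) g
          · rw [if_pos hcond, mul_comm]
            apply mul_le_mul_of_nonneg_left _ (hw a ha)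
            have h3 : (G.filter fun U => ¬ accK (A a) V0 ∧ U ∈ A a) ⊆ A a := fun U hU =>
              (Finset.mem_filter.1 hU).2.2
            exact_mod_cast (Finset.card_le_card h3).trans (hA a ha)
          · rw [if_neg hcond]
            have h3 : (G.filter fun U => ¬ accK (A a) V0 ∧ U ∈ A a) = ∅ := by
              apply Finset.filter_eq_empty_iff.2
              rintro U hU ⟨h4, h5⟩
              exact hcond ⟨h4, U, h5, hG U hU⟩
            rw [h3]
            simp
      _ = X * m := by rw [← Finset.sum_filter, Finset.sum_mul]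
  have h3 : (m : ℝ) * (θ - wK F A w V0) ≤ ∑ U ∈ G, marg F A w V0 U := by
    have h4 : (2 : ℝ) ^ (κ + 1) * m ≤ G.card := by exact_mod_cast hc
    calc (m : ℝ) * (θ - wK F A w V0)
        = (2 ^ (κ + 1) * m) * ((θ - wK F A w V0) / 2 ^ (κ + 1)) := by
          field_simp
      _ ≤ G.card * ((θ - wK F A w V0) / 2 ^ (κ + 1)) :=
          mul_le_mul_of_nonneg_right h4 (by positivity)
      _ = ∑ U ∈ G, (θ - wK F A w V0) / 2 ^ (κ + 1) := by rw [Finset.sum_const, nsmul_eq_mul]
      _ ≤ _ := Finset.sum_le_sum hmarg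
  have h4 : (m : ℝ) * (θ - wK F A w V0) ≤ m * X := by linarith
  have h5 := le_of_mul_le_mul_left h4 hmR
  linarith

variable (F A w θ κ)

open Classical in
/-- the next sets -/
noncomputable def nxt (r : ℕ) (V0 : Finset V) : Finset (Finset V) :=
  univ.filter fun W => V0 ⊂ W ∧ W.card ≤ κ + 1 ∧ 0 < θ - wK F A w V0 ∧
    (∀ U' ⊆ W, ¬ In r (fT F A w θ κ) U') ∧
    ∃ U, W = V0 ∪ U ∧ U.card ≤ κ ∧ (θ - wK F A w V0) / 2 ^ (κ + 1) ≤ marg F A w V0 U

variable {F A w θ κ}

theorem ssub_of_mem_nxt {r : ℕ} {V0 W : Finset V} (h : W ∈ nxt κ F A w θ r V0) : V0 ⊂ W := by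
  classical
  exact (Finset.mem_filter.1 h).2.1

theorem nxt_card {r : ℕ} (hw : ∀ a ∈ F, 0 ≤ w a) (hA : ∀ a ∈ F, (A a).card ≤ m0 κ r)
    (V0 : Finset V) : (nxt κ F A w θ r V0).card ≤ SS κ r := by
  classical
  have hN : ∀ W, W ∈ nxt κ F A w θ r V0 ↔ V0 ⊂ W ∧ W.card ≤ κ + 1 ∧ 0 < θ - wK F A w V0 ∧
    (∀ U' ⊆ W, ¬ In r (fT F A w θ κ) U') ∧
    ∃ U, W = V0 ∪ U ∧ U.card ≤ κ ∧ (θ - wK F A w V0) / 2 ^ (κ + 1) ≤ marg F A w V0 U := by
    intro W
    simp [nxt]
  apply sf' (base := V0) (k := κ + 1) (Np := Np κ r) (fun W hW => ((hN W).1 hW).2.1)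
    (fun W hW => ((hN W).1 hW).1.subset)
  intro C hC G hG hCW hd
  by_contra hcon
  push Not at hcon
  have hG' : ∀ W ∈ G, ∃ U, W = V0 ∪ U ∧ U.card ≤ κ ∧
      (θ - wK F A w V0) / 2 ^ (κ + 1) ≤ marg F A w V0 U := fun W hW =>
    ((hN W).1 (hG hW)).2.2.2.2
  choose! u hu1 hu2 hu3 using hG'
  have hne : G.Nonempty := by
    rw [← Finset.card_pos]
    omega
  obtain ⟨W0, hW0⟩ := hne
  obtain ⟨-, hW0c, hrem, hNB, -⟩ := (hN W0).1 (hG hW0)
  have hCc : C.card ≤ κ := by
    have := Finset.card_lt_card (hCW W0 hW0)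
    omega
  have huC : ∀ W ∈ G, u W \ C = W \ C := by
    intro W hW
    conv_rhs => rw [hu1 W hW]
    ext v
    simp only [Finset.mem_sdiff, Finset.mem_union]
    constructor
    · rintro ⟨h1, h2⟩
      exact ⟨Or.inr h1, h2⟩
    · rintro ⟨h1 | h1, h2⟩
      · exact absurd (hC h1) h2
      · exact ⟨h1, h2⟩
  set G2 := G.image u with hG2
  have hinj : Set.InjOn u (G : Set (Finset V)) := by
    intro W hW W' hW' heq
    rw [hu1 W hW, hu1 W' hW', heq]
  have hG2c : G2.card = G.card := Finset.card_image_of_injOn hinj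
  have hG2d : (G2 : Set (Finset V)).PairwiseDisjoint fun U => U \ C := by
    intro U hU U' hU' hne'
    obtain ⟨W, hW, rfl⟩ := Finset.mem_image.1 (Finset.mem_coe.1 hU)
    obtain ⟨W', hW', rfl⟩ := Finset.mem_image.1 (Finset.mem_coe.1 hU')
    have hWW : W ≠ W' := by
      rintro rfl
      exact hne' rfl
    have := hd (Finset.mem_coe.2 hW) (Finset.mem_coe.2 hW') hWW
    simp only [Function.onFun] at this ⊢
    rw [huC W hW, huC W' hW']
    exact this
  have h1 := manyRb (κ := κ) C (tt κ r) (hh κ r) G2 (fun U hU => by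
    obtain ⟨W, hW, rfl⟩ := Finset.mem_image.1 hU
    exact hu2 W hW) hG2d (by rw [hG2c]; exact hcon.le)
  apply hNB C (hCW W0 hW0).subset
  refine ⟨hCc, ?_⟩
  set N := Fintype.card (V → Fin κ) with hNd
  have hsub : (univ.filter fun g : V → Fin κ => Rb g C ∧ ¬ fT F A w θ κ g) ⊆
      univ.filter fun g : V → Fin κ => Rb g C ∧ (G2.filter fun U => Rb g U).card < hh κ r := by
    intro g hg
    obtain ⟨-, hg1, hg2⟩ := Finset.mem_filter.1 hg
    refine Finset.mem_filter.2 ⟨mem_univ _, hg1, ?_⟩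
    by_contra hcon2
    push Not at hcon2
    apply hg2
    apply weight (m := m0 κ r) (m0_pos κ r) hw hA (hg1.mono hC) hrem
      (G := G2.filter fun U => Rb g U) (fun U hU => (Finset.mem_filter.1 hU).2) _ hcon2
    intro U hU
    obtain ⟨W, hW, rfl⟩ := Finset.mem_image.1 (Finset.mem_filter.1 hU).1
    exact hu3 W hW
  have h2 : bet (fT F A w θ κ) C * 2 ^ tt κ r ≤ hh κ r * N := by
    refine le_trans (Nat.mul_le_mul_right _ ?_) h1
    unfold bet
    exact Finset.card_le_card hsub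
  have h3 : hh κ r ≤ 2 ^ hh κ r := Nat.lt_two_pow_self.le
  have h4 : 2 ^ hh κ r * (bet (fT F A w θ κ) C * 2 ^ (r * (C.card + 1))) ≤ 2 ^ hh κ r * N := by
    calc 2 ^ hh κ r * (bet (fT F A w θ κ) C * 2 ^ (r * (C.card + 1)))
        = bet (fT F A w θ κ) C * 2 ^ (r * (C.card + 1) + hh κ r) := by rw [pow_add]; ring
      _ ≤ bet (fT F A w θ κ) C * 2 ^ tt κ r := by
          apply Nat.mul_le_mul_left
          apply Nat.pow_le_pow_right (by norm_num)
          unfold tt
          have : r * (C.card + 1) ≤ r * (κ + 1) := Nat.mul_le_mul_left _ (by omega)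
          omega
      _ ≤ hh κ r * N := h2
      _ ≤ 2 ^ hh κ r * N := Nat.mul_le_mul_right _ h3
  exact Nat.le_of_mul_le_mul_left h4 (by positivity)

theorem exists_nxt {r : ℕ} (hw : ∀ a ∈ F, 0 ≤ w a) (hA : ∀ a ∈ F, ∀ U ∈ A a, U.card ≤ κ)
    {K V0 : Finset V} (hK : K.card = κ + 1) (hθ : θ ≤ wK F A w K)
    (hNB : ∀ U' ⊆ K, ¬ In r (fT F A w θ κ) U') (hV0 : V0 ⊂ K) :
    ∃ W ∈ nxt κ F A w θ r V0, W ⊆ K := by
  classical
  have hrem : 0 < θ - wK F A w V0 := by
    by_contra hcon
    apply hNB V0 hV0.subset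
    apply in_of_forall
    · have := Finset.card_lt_card hV0
      omega
    · intro g hg
      have := wK_le_wG (A := A) hw hg
      unfold fT
      linarith
  have hsum : θ - wK F A w V0 ≤ ∑ U ∈ K.powerset, marg F A w V0 U := by
    have h1 : wK F A w K ≤ wK F A w V0 + ∑ U ∈ K.powerset, marg F A w V0 U := by
      unfold wK marg
      simp only [Finset.sum_filter]
      rw [Finset.sum_comm, ← Finset.sum_add_distrib]
      refine Finset.sum_le_sum fun a ha => ?_
      have hnn : 0 ≤ ∑ U ∈ K.powerset, if (¬ accK (A a) V0 ∧ U ∈ A a) then w a else 0 :=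
        Finset.sum_nonneg fun U _ => by
          split_ifs
          · exact hw a ha
          · exact le_rfl
      by_cases h1 : accK (A a) K
      · rw [if_pos h1]
        by_cases h2 : accK (A a) V0
        · rw [if_pos h2]
          linarith
        · rw [if_neg h2, zero_add]
          obtain ⟨U, hU, hUK⟩ := h1
          refine le_trans (le_of_eq ?_) (Finset.single_le_sum
            (f := fun U => if (¬ accK (A a) V0 ∧ U ∈ A a) then w a else 0) (fun U _ => by
              split_ifs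
              · exact hw a ha
              · exact le_rfl) (Finset.mem_powerset.2 hUK))
          rw [if_pos ⟨h2, hU⟩]
      · rw [if_neg h1]
        have : (0 : ℝ) ≤ if accK (A a) V0 then w a else 0 := by
          split_ifs
          · exact hw a ha
          · exact le_rfl
        linarith
    linarith
  obtain ⟨U, hUK, hUm⟩ : ∃ U ∈ K.powerset,
      (θ - wK F A w V0) / 2 ^ (κ + 1) ≤ marg F A w V0 U := by
    apply Finset.exists_le_of_sum_le (s := K.powerset)
      (f := fun _ => (θ - wK F A w V0) / 2 ^ (κ + 1)) ⟨∅, Finset.empty_mem_powerset _⟩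
    rw [Finset.sum_const, Finset.card_powerset, hK, nsmul_eq_mul]
    push_cast
    rw [mul_div_cancel₀ _ (by positivity)]
    exact hsum
  rw [Finset.mem_powerset] at hUK
  have hpos : 0 < marg F A w V0 U := lt_of_lt_of_le (by positivity) hUm
  obtain ⟨a, haF, ha1, ha2⟩ : ∃ a ∈ F, ¬ accK (A a) V0 ∧ U ∈ A a := by
    by_contra hcon
    push Not at hcon
    have h0 : marg F A w V0 U = 0 := by
      unfold marg
      rw [Finset.filter_eq_empty_iff.2, Finset.sum_empty]
      rintro a ha ⟨h1, h2⟩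
      exact hcon a ha h1 h2
    linarith
  refine ⟨V0 ∪ U, ?_, Finset.union_subset hV0.subset hUK⟩
  unfold nxt
  have hss : V0 ⊂ V0 ∪ U := by
    rw [Finset.ssubset_iff_subset_ne]
    refine ⟨Finset.subset_union_left, fun heq => ha1 ⟨U, ha2, ?_⟩⟩
    rw [heq]
    exact Finset.subset_union_right
  refine Finset.mem_filter.2 ⟨mem_univ _, hss, ?_, hrem, ?_, U, rfl, hA a haF U ha2, hUm⟩
  · rw [← hK]
    exact Finset.card_le_card (Finset.union_subset hV0.subset hUK)
  · intro U' hU'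
    exact hNB U' (hU'.trans (Finset.union_subset hV0.subset hUK))

variable (F A w θ κ)

/-- the sets which can be reached -/
noncomputable def reach (r : ℕ) : ℕ → Finset (Finset V)
  | 0 => {∅}
  | i + 1 => reach r i ∪ (reach r i).biUnion (nxt κ F A w θ r)

variable {F A w θ κ}

theorem reach_card {r : ℕ} (hw : ∀ a ∈ F, 0 ≤ w a) (hA : ∀ a ∈ F, (A a).card ≤ m0 κ r)
    (i : ℕ) : (reach κ F A w θ r i).card ≤ (1 + SS κ r) ^ i := by
  induction i with
  | zero => simp [reach]
  | succ i ih =>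
    unfold reach
    refine (Finset.card_union_le _ _).trans ?_
    have h1 : ((reach κ F A w θ r i).biUnion (nxt κ F A w θ r)).card ≤
        (reach κ F A w θ r i).card * SS κ r :=
      Finset.card_biUnion_le_card_mul _ _ _ fun V0 _ => nxt_card hw hA V0
    calc _ ≤ (reach κ F A w θ r i).card + (reach κ F A w θ r i).card * SS κ r :=
          Nat.add_le_add_left h1 _
      _ = (reach κ F A w θ r i).card * (1 + SS κ r) := by ring
      _ ≤ (1 + SS κ r) ^ i * (1 + SS κ r) := Nat.mul_le_mul_right _ ih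
      _ = (1 + SS κ r) ^ (i + 1) := (pow_succ _ _).symm

theorem exists_reach {r : ℕ} (hw : ∀ a ∈ F, 0 ≤ w a) (hA : ∀ a ∈ F, ∀ U ∈ A a, U.card ≤ κ)
    {K : Finset V} (hK : K.card = κ + 1) (hθ : θ ≤ wK F A w K)
    (hNB : ∀ U' ⊆ K, ¬ In r (fT F A w θ κ) U') :
    ∀ i ≤ κ + 1, ∃ W ∈ reach κ F A w θ r i, W ⊆ K ∧ i ≤ W.card := by
  intro i
  induction i with
  | zero =>
    intro _
    exact ⟨∅, by simp [reach], Finset.empty_subset _, Nat.zero_le _⟩
  | succ i ih =>
    intro hi
    obtain ⟨W, hW, hWK, hc⟩ := ih (by omega)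
    by_cases heq : W = K
    · refine ⟨W, Finset.mem_union_left _ hW, hWK, ?_⟩
      rw [heq, hK]
      omega
    · obtain ⟨W', hW', hWK'⟩ := exists_nxt (r := r) hw hA hK hθ hNB
        (Finset.ssubset_iff_subset_ne.2 ⟨hWK, heq⟩)
      refine ⟨W', Finset.mem_union_right _ (Finset.mem_biUnion.2 ⟨W, hW, hW'⟩), hWK', ?_⟩
      have h1 : W ⊂ W' := ssub_of_mem_nxt hW'
      have := Finset.card_lt_card h1
      omega

/-- **Few cliques are lost by a threshold gate.** -/
theorem lost {r : ℕ} (hw : ∀ a ∈ F, 0 ≤ w a) (hA : ∀ a ∈ F, ∀ U ∈ A a, U.card ≤ κ)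
    (hAc : ∀ a ∈ F, (A a).card ≤ m0 κ r) :
    ∃ L : Finset (Finset V), L.card ≤ Lo κ r ∧ ∀ K : Finset V, K.card = κ + 1 → K ∉ L →
      θ ≤ wK F A w K → accK (cl r (fT F A w θ κ)) K := by
  classical
  refine ⟨reach κ F A w θ r (κ + 1), reach_card hw hAc (κ + 1), fun K hK hKL hθ => ?_⟩
  by_contra hcon
  apply hKL
  obtain ⟨W, hW, hWK, hc⟩ := exists_reach (r := r) hw hA hK hθ (by
    intro U' hU' hI
    obtain ⟨U'', h1, h2⟩ := exists_cl hI
    exact hcon ⟨U'', h1, h2.trans hU'⟩) (κ + 1) le_rfl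
  have : W = K := Finset.eq_of_subset_of_card_le hWK (by rw [hK]; exact hc)
  rw [← this]
  exact hW

end

end Pool.Agent.W2helper95.KC
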