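import Pool.Agent.W2helper95.KC.Avg

/-!
# Systems of blocks for cliques
-/

set_option autoImplicit false

open Finset

namespace Pool.Agent.W2helper95.KC

open Pool.Agent.W2helper95.ET (prs mem_prs Dis)

theorem lines {x x' d d' i j : ℕ} (h1 : x + i * d = x' + i * d') (h2 : x + j * d = x' + j * d')
    (hij : i ≠ j) : d = d' ∧ x = x' := by
  have h1' : (x : ℤ) + i * d = x' + i * d' := by exact_mod_cast h1
  have h2' : (x : ℤ) + j * d = x' + j * d' := by exact_mod_cast h2
  have h3 : ((i : ℤ) - j) * (d - d') = 0 := by linarith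
  have h4 : (i : ℤ) - j ≠ 0 := by
    intro h
    apply hij
    have : (i : ℤ) = j := by linarith
    exact_mod_cast this
  have h5 : (d : ℤ) - d' = 0 := by
    rcases mul_eq_zero.1 h3 with h | h
    · exact absurd h h4
    · exact h
  have h6 : d = d' := by
    have : (d : ℤ) = d' := by linarith
    exact_mod_cast this
  refine ⟨h6, ?_⟩
  rw [h6] at h1
  omega

section

variable {V : Type} [DecidableEq V] [Fintype V] (prt pos : V → ℕ) (k : ℕ)

/-- the vertex `v` belongs to the block -/
def inB (b : ℕ × ℕ) (v : V) : Prop := prt v < k ∧ pos v = b.1 + prt v * b.2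

open Classical in
/-- the pairs of the block -/
noncomputable def EB (b : ℕ × ℕ) : Finset (Sym2 V) :=
  univ.filter fun p => ∃ u v, p = s(u, v) ∧ prt u ≠ prt v ∧ inB prt pos k b u ∧ inB prt pos k b v

variable {prt pos k}

theorem mem_EB {b : ℕ × ℕ} {u v : V} : s(u, v) ∈ EB prt pos k b ↔
    prt u ≠ prt v ∧ inB prt pos k b u ∧ inB prt pos k b v := by
  classical
  unfold EB
  rw [Finset.mem_filter]
  constructor
  · rintro ⟨-, u', v', h, h1, h2, h3⟩
    rcases Sym2.eq_iff.1 h with ⟨rfl, rfl⟩ | ⟨rfl, rfl⟩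
    · exact ⟨h1, h2, h3⟩
    · exact ⟨h1.symm, h3, h2⟩
  · rintro ⟨h1, h2, h3⟩
    exact ⟨mem_univ _, u, v, rfl, h1, h2, h3⟩

theorem EB_diag {b : ℕ × ℕ} {p : Sym2 V} (hp : p ∈ EB prt pos k b) : ¬ p.IsDiag := by
  induction p with
  | _ u v =>
    rw [Sym2.mk_isDiag_iff]
    rintro rfl
    exact (mem_EB.1 hp).1 rfl

theorem EB_dis {b b' : ℕ × ℕ} {p : Sym2 V} (hp : p ∈ EB prt pos k b)
    (hp' : p ∈ EB prt pos k b') : b = b' := by
  induction p with
  | _ u v =>
    obtain ⟨h1, ⟨-, h2⟩, ⟨-, h3⟩⟩ := mem_EB.1 hp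
    obtain ⟨-, ⟨-, h2'⟩, ⟨-, h3'⟩⟩ := mem_EB.1 hp'
    obtain ⟨e1, e2⟩ := lines (h2.symm.trans h2') (h3.symm.trans h3') h1
    exact Prod.ext e2 e1

/-- A clique of the union of the blocks lies in one block. -/
theorem EB_cl (hk : 2 ≤ k) {P : Finset ℕ} (hap : ThreeAPFree (P : Set ℕ)) {g : ℕ}
    {K : Finset V} (hK : K.card = k)
    (h : ∀ p ∈ prs K, ∃ b : ℕ × ℕ, b.1 < g ∧ b.2 ∈ P ∧ p ∈ EB prt pos k b) :
    ∃ b : ℕ × ℕ, b.1 < g ∧ b.2 ∈ P ∧ prs K ⊆ EB prt pos k b := by
  classical
  have hpair : ∀ u ∈ K, ∀ v ∈ K, u ≠ v → ∃ b : ℕ × ℕ, b.1 < g ∧ b.2 ∈ P ∧ prt u ≠ prt v ∧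
      inB prt pos k b u ∧ inB prt pos k b v := by
    intro u hu v hv huv
    obtain ⟨b, h1, h2, h3⟩ := h s(u, v) (mem_prs.2 ⟨hu, hv, huv⟩)
    exact ⟨b, h1, h2, mem_EB.1 h3⟩
  have hinj : Set.InjOn prt (K : Set V) := by
    intro u hu v hv huv
    by_contra hne
    obtain ⟨b, -, -, h1, -⟩ := hpair u hu v hv hne
    exact h1 huv
  have hlt : ∀ u ∈ K, prt u < k := by
    intro u hu
    obtain ⟨v, hv, hne⟩ : ∃ v ∈ K, v ≠ u := by
      have : 1 < K.card := by omega
      obtain ⟨a, ha, b, hb, hab⟩ := Finset.one_lt_card.1 this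
      by_cases hau : a = u
      · exact ⟨b, hb, fun h => hab (hau.trans h.symm)⟩
      · exact ⟨a, ha, hau⟩
    obtain ⟨b, -, -, -, -, h2⟩ := hpair v hv u hu hne
    exact h2.1
  have himg : K.image prt = range k := by
    apply Finset.eq_of_subset_of_card_le
    · intro i hi
      obtain ⟨u, hu, rfl⟩ := Finset.mem_image.1 hi
      exact Finset.mem_range.2 (hlt u hu)
    · rw [Finset.card_range, Finset.card_image_of_injOn hinj, hK]
  have hex : ∀ i : ℕ, ∃ v, i < k → v ∈ K ∧ prt v = i := by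
    intro i
    by_cases hi : i < k
    · have h1 : i ∈ K.image prt := by rw [himg]; exact Finset.mem_range.2 hi
      obtain ⟨v, hv, hvi⟩ := Finset.mem_image.1 h1
      exact ⟨v, fun _ => ⟨hv, hvi⟩⟩
    · obtain ⟨v, -⟩ : K.Nonempty := by
        rw [← Finset.card_pos]; omega
      exact ⟨v, fun h => absurd h hi⟩
  choose v hv using hex
  have hblk : ∀ i j, i < k → j < k → i ≠ j → ∃ b : ℕ × ℕ, b.1 < g ∧ b.2 ∈ P ∧
      pos (v i) = b.1 + i * b.2 ∧ pos (v j) = b.1 + j * b.2 := by
    intro i j hi hj hij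
    obtain ⟨h1, h2⟩ := hv i hi
    obtain ⟨h3, h4⟩ := hv j hj
    have hne : v i ≠ v j := by
      intro h
      rw [h, h4] at h2
      exact hij h2.symm
    obtain ⟨b, h5, h6, -, ⟨-, h7⟩, ⟨-, h8⟩⟩ := hpair _ h1 _ h3 hne
    rw [h2] at h7
    rw [h4] at h8
    exact ⟨b, h5, h6, h7, h8⟩
  obtain ⟨⟨x, d⟩, hx, hd, hp0, hp1⟩ := hblk 0 1 (by omega) (by omega) (by norm_num)
  simp only at hx hd hp0 hp1
  have hstep : ∀ i, i + 1 < k → pos (v (i + 1)) = pos (v i) + d := by
    intro i
    induction i with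
    | zero =>
      intro _
      rw [zero_add]
      omega
    | succ i ih =>
      intro hi
      have h1 := ih (by omega)
      obtain ⟨⟨x1, d1⟩, -, hd1, ha1, hb1⟩ := hblk i (i + 1) (by omega) (by omega) (by omega)
      obtain ⟨⟨x2, d2⟩, -, hd2, ha2, hb2⟩ := hblk (i + 1) (i + 1 + 1) (by omega) (by omega)
        (by omega)
      obtain ⟨⟨x3, d3⟩, -, hd3, ha3, hb3⟩ := hblk i (i + 1 + 1) (by omega) (by omega) (by omega)
      simp only at hd1 hd2 hd3 ha1 hb1 ha2 hb2 ha3 hb3
      have e1 : pos (v (i + 1)) = pos (v i) + d1 := by rw [ha1, hb1]; ring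
      have e2 : pos (v (i + 1 + 1)) = pos (v (i + 1)) + d2 := by rw [ha2, hb2]; ring
      have e3 : pos (v (i + 1 + 1)) = pos (v i) + (d3 + d3) := by rw [ha3, hb3]; ring
      have h2 : d1 + d2 = d3 + d3 := by omega
      have h3 : d1 = d3 := hap hd1 hd3 hd2 h2
      have h4 : d1 = d := by omega
      omega
  have hall : ∀ i, i < k → pos (v i) = x + i * d := by
    intro i
    induction i with
    | zero =>
      intro _
      rw [hp0]
    | succ i ih =>
      intro hi
      rw [hstep i hi, ih (by omega)]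
      ring
  refine ⟨(x, d), hx, hd, ?_⟩
  have hin : ∀ u ∈ K, inB prt pos k (x, d) u := by
    intro u hu
    have h1 := hlt u hu
    have h2 := hv (prt u) h1
    have h3 : v (prt u) = u := hinj h2.1 hu h2.2
    refine ⟨h1, ?_⟩
    have := hall (prt u) h1
    rw [h3] at this
    exact this
  intro p hp
  induction p with
  | _ a b =>
    obtain ⟨ha, hb, hab⟩ := mem_prs.1 hp
    exact mem_EB.2 ⟨fun h => hab (hinj ha hb h), hin a ha, hin b hb⟩

variable (prt pos k)

open Classical in
/-- the groups of the block -/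
noncomputable def grps (b : ℕ × ℕ) (i : Fin k) : Finset V :=
  univ.filter fun v => prt v = i.val ∧ pos v = b.1 + i.val * b.2

open Classical in
/-- the cliques of the block with one vertex in each group -/
noncomputable def TB (b : ℕ × ℕ) : Finset (Finset V) :=
  (Fintype.piFinset (grps prt pos k b)).image fun φ => univ.image φ

variable {prt pos k}

theorem mem_grps {b : ℕ × ℕ} {i : Fin k} {v : V} :
    v ∈ grps prt pos k b i ↔ prt v = i.val ∧ pos v = b.1 + i.val * b.2 := by
  classical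
  simp [grps]

theorem phi_inj {b : ℕ × ℕ} {φ : Fin k → V} (h : ∀ i, φ i ∈ grps prt pos k b i) :
    Function.Injective φ := by
  intro i j hij
  have h1 := (mem_grps.1 (h i)).1
  have h2 := (mem_grps.1 (h j)).1
  rw [hij, h2] at h1
  exact Fin.ext h1.symm

theorem TB_sub {b : ℕ × ℕ} {K : Finset V} (hK : K ∈ TB prt pos k b) :
    K.card = k ∧ prs K ⊆ EB prt pos k b := by
  classical
  obtain ⟨φ, hφ, rfl⟩ := Finset.mem_image.1 hK
  rw [Fintype.mem_piFinset] at hφ
  refine ⟨?_, ?_⟩
  · rw [Finset.card_image_of_injective _ (phi_inj hφ), Finset.card_univ, Fintype.card_fin]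
  · intro p hp
    induction p with
    | _ a c =>
      obtain ⟨ha, hc, hac⟩ := mem_prs.1 hp
      obtain ⟨i, -, rfl⟩ := Finset.mem_image.1 ha
      obtain ⟨j, -, rfl⟩ := Finset.mem_image.1 hc
      have h1 := mem_grps.1 (hφ i)
      have h2 := mem_grps.1 (hφ j)
      rw [mem_EB]
      unfold inB
      rw [h1.1, h2.1]
      refine ⟨fun h => hac (by rw [Fin.ext h]), ⟨i.isLt, h1.2⟩, ⟨j.isLt, h2.2⟩⟩

theorem phi_eq {b : ℕ × ℕ} {φ ψ : Fin k → V} (h : ∀ i, φ i ∈ grps prt pos k b i)
    (h' : ∀ i, ψ i ∈ grps prt pos k b i) {i : Fin k} (hi : φ i ∈ univ.image ψ) : φ i = ψ i := by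
  classical
  obtain ⟨j, -, hj⟩ := Finset.mem_image.1 hi
  have h1 := (mem_grps.1 (h i)).1
  have h2 := (mem_grps.1 (h' j)).1
  rw [← hj, h2] at h1
  have : j = i := Fin.ext h1
  rw [← hj, this]

theorem TB_card {b : ℕ × ℕ} {q : ℕ} (hq : ∀ i, (grps prt pos k b i).card = q) :
    (TB prt pos k b).card = q ^ k := by
  classical
  unfold TB
  rw [Finset.card_image_of_injOn, Fintype.card_piFinset]
  · rw [Finset.prod_congr rfl fun i _ => hq i, Finset.prod_const, Finset.card_univ,
      Fintype.card_fin]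
  · intro φ hφ ψ hψ heq
    rw [Finset.mem_coe, Fintype.mem_piFinset] at hφ hψ
    funext i
    apply phi_eq hφ hψ
    simp only at heq
    rw [← heq]
    exact Finset.mem_image_of_mem _ (mem_univ _)

theorem TB_Q {b : ℕ × ℕ} {q : ℕ} (hq : ∀ i, (grps prt pos k b i).card = q) {U : Finset V}
    (hU : 2 ≤ U.card) : ((TB prt pos k b).filter fun K => U ⊆ K).card ≤ q ^ (k - 1) := by
  classical
  obtain ⟨u, hu⟩ : U.Nonempty := by
    rw [← Finset.card_pos]; omega
  by_cases hpu : prt u < k
  · set i : Fin k := ⟨prt u, hpu⟩ with hi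
    have hsub : ((TB prt pos k b).filter fun K => U ⊆ K) ⊆
        (Fintype.piFinset (Function.update (grps prt pos k b) i {u})).image
          fun φ => univ.image φ := by
      intro K hK
      obtain ⟨hK1, hK2⟩ := Finset.mem_filter.1 hK
      obtain ⟨φ, hφ, rfl⟩ := Finset.mem_image.1 hK1
      refine Finset.mem_image.2 ⟨φ, ?_, rfl⟩
      rw [Fintype.mem_piFinset] at hφ ⊢
      intro j
      by_cases hj : j = i
      · rw [hj, Function.update_self, Finset.mem_singleton]
        obtain ⟨l, -, hl⟩ := Finset.mem_image.1 (hK2 hu)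
        have h1 := (mem_grps.1 (hφ l)).1
        rw [hl] at h1
        have : l = i := Fin.ext (by rw [hi]; exact h1.symm)
        rw [← this]
        exact hl
      · rw [Function.update_of_ne hj]
        exact hφ j
    refine (Finset.card_le_card hsub).trans (Finset.card_image_le.trans ?_)
    rw [Fintype.card_piFinset]
    have e : ∀ j, (Function.update (grps prt pos k b) i {u} j).card =
        Function.update (fun j => (grps prt pos k b j).card) i 1 j := by
      intro j
      by_cases hj : j = i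
      · rw [hj, Function.update_self, Function.update_self, Finset.card_singleton]
      · rw [Function.update_of_ne hj, Function.update_of_ne hj]
    rw [Finset.prod_congr rfl fun j _ => e j, Finset.prod_update_of_mem (mem_univ _), one_mul,
      Finset.prod_congr rfl fun j _ => hq j, Finset.prod_const]
    apply le_of_eq
    congr 1
    rw [Finset.card_sdiff_of_subset (Finset.subset_univ _), Finset.card_univ, Fintype.card_fin,
      Finset.card_singleton]
  · have : ((TB prt pos k b).filter fun K => U ⊆ K) = ∅ := by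
      apply Finset.filter_eq_empty_iff.2
      intro K hK1 hK2
      obtain ⟨φ, hφ, rfl⟩ := Finset.mem_image.1 hK1
      rw [Fintype.mem_piFinset] at hφ
      obtain ⟨l, -, hl⟩ := Finset.mem_image.1 (hK2 hu)
      have h1 := (mem_grps.1 (hφ l)).1
      rw [hl] at h1
      exact hpu (by rw [h1]; exact l.isLt)
    rw [this]
    simp

end

/-- the part of a vertex -/
def prtN (n q G : ℕ) (v : Fin n) : ℕ := v.val / q / G

/-- the position of a vertex -/
def posN (n q G : ℕ) (v : Fin n) : ℕ := v.val / q % G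

theorem grpsN {n q G k : ℕ} (hq : 0 < q) {b : ℕ × ℕ} {i : Fin k}
    (hG : b.1 + i.val * b.2 < G) (hn : (i.val * G + (b.1 + i.val * b.2) + 1) * q ≤ n) :
    (grps (prtN n q G) (posN n q G) k b i).card = q := by
  classical
  have hG0 : 0 < G := by omega
  have e : grps (prtN n q G) (posN n q G) k b i =
      univ.filter fun v : Fin n => v.val / q = i.val * G + (b.1 + i.val * b.2) := by
    ext v
    rw [mem_grps, Finset.mem_filter]
    unfold prtN posN
    constructor
    · rintro ⟨h1, h2⟩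
      refine ⟨mem_univ _, ?_⟩
      have h3 := Nat.div_add_mod (v.val / q) G
      rw [h1, h2] at h3
      rw [← h3, mul_comm]
    · rintro ⟨-, h⟩
      rw [h]
      constructor
      · rw [add_comm, Nat.add_mul_div_right _ _ hG0, Nat.div_eq_of_lt hG, zero_add]
      · rw [add_comm, Nat.add_mul_mod_self_right, Nat.mod_eq_of_lt hG]
  rw [e]
  apply le_antisymm
  · have := ET.grp_le (n := n) hq 1 (i.val * G + (b.1 + i.val * b.2))
    exact this
  · exact ET.le_grp _ hn

end Pool.Agent.W2helper95.KC
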