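import Pool.Agent.W2helper95.KC.Approx

/-!
# The dichotomy for the windows of a threshold circuit
-/

set_option autoImplicit false

open Finset

namespace Pool.Agent.W2helper95.KC

open Pool.Agent.W2helper95.ET Pool.Agent.W2helper95.TS

variable {V : Type} [DecidableEq V] [Fintype V] {κ : ℕ}

/-- the bound for the number of accepted cliques -/
noncomputable def Lam (κ r Q : ℕ) (C : Net (Sym2 V)) : ℕ := Lo κ r * numThr C + m0 κ r * Q

open Classical in
/-- **The dichotomy.** A window either accepts almost all colourings, up to changes of the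
signals with a negative weight, or few cliques. -/
theorem dich (C : Net (Sym2 V)) {E : Finset (Sym2 V)} (hE : ∀ p ∈ E, ¬ p.IsDiag)
    (u : Sym2 V → Bool) {T : Finset (Finset V)} (hT : ∀ K ∈ T, K.card = κ + 1) (hκ : 2 ≤ κ)
    {r Q : ℕ} (hr : 2 * N1 κ r ≤ 2 ^ r)
    (hQ : ∀ U : Finset V, 2 ≤ U.card → (T.filter fun K => U ⊆ K).card ≤ Q) :
    (∃ R : Finset (V → Fin κ),
      R.card * 2 ^ r ≤ (C.s + 1) * (m0 κ r * Fintype.card (V → Fin κ)) ∧ ∀ g, g ∉ R →
      C.eval (inw E u (kc g)) = true ∨
        C.Changed (inw E u fun _ => false) (inw E u (kc g))) ∨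
    (T.filter fun K => C.eval (inw E u (zK K)) = true).card ≤ Lam κ r Q C := by
  obtain ⟨G, hG1, hG2⟩ := win C E u
  obtain ⟨A, L, R, hL, hR, hA⟩ := approx (C := C) (E := E) (u := u) (T := T) (r := r) (κ := κ)
    hE hT hκ hr C.s le_rfl
  have hA' : ∀ i, Gd C E u T r L R i (A i) := fun i => hA i i.isLt
  have hL' : L.card ≤ Lo κ r * numThr C := hL.trans (Nat.mul_le_mul_left _ (thrs_le C C.s))
  set N := Fintype.card (V → Fin κ) with hN
  set f : (V → Fin κ) → Prop := fun g => ∃ i ∈ G, accG (A i) g with hf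
  by_cases h0 : (∅ : Finset V) ∈ cl r f
  · left
    refine ⟨R ∪ univ.filter (fun g : V → Fin κ => Rb g ∅ ∧ ¬ f g), ?_, fun g hg => ?_⟩
    · have h1 : bet f ∅ * 2 ^ r ≤ N := by
        have := (mem_cl.1 h0).1.2
        rw [Finset.card_empty, zero_add, mul_one] at this
        exact this
      have h2 := Finset.card_union_le R (univ.filter (fun g : V → Fin κ => Rb g ∅ ∧ ¬ f g))
      have h3 := Nat.mul_le_mul_right (2 ^ r) h2
      rw [add_mul] at h3
      have h4 : (univ.filter (fun g : V → Fin κ => Rb g ∅ ∧ ¬ f g)).card * 2 ^ r ≤ N := by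
        unfold bet at h1
        convert h1 using 3
        ext g
        simp only [Finset.mem_filter]
      have h5 : N ≤ m0 κ r * N := by
        calc N = 1 * N := (one_mul _).symm
          _ ≤ m0 κ r * N := Nat.mul_le_mul_right _ (m0_pos κ r)
      have h6 : (C.s + 1) * (m0 κ r * N) = C.s * (m0 κ r * N) + m0 κ r * N := by ring
      omega
    · rw [Finset.mem_union, not_or] at hg
      have hfg : f g := by
        by_contra hcon
        exact hg.2 (Finset.mem_filter.2 ⟨mem_univ _, rb_empty g, hcon⟩)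
      obtain ⟨i, hi, ha⟩ := hfg
      by_cases hc : C.Changed (inw E u fun _ => false) (inw E u (kc g))
      · exact Or.inr hc
      · exact Or.inl (hG2 _ hc ⟨i, hi, (hA' i).2.2.2 g hg.1 ha⟩)
  · right
    have hsub : (T.filter fun K => C.eval (inw E u (zK K)) = true) ⊆
        L ∪ (cl r f).biUnion fun U => T.filter fun K => U ⊆ K := by
      intro K hK
      obtain ⟨hKT, hKe⟩ := Finset.mem_filter.1 hK
      by_cases hKL : K ∈ L
      · exact Finset.mem_union_left _ hKL
      · apply Finset.mem_union_right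
        obtain ⟨i, hi, hiz⟩ := hG1 _ hKe
        obtain ⟨U, hU, hUK⟩ := (hA' i).2.2.1 K hKT hKL hiz
        have hI : In r f U := in_of_forall ((hA' i).1 U hU).1 fun g hg => ⟨i, hi, U, hU, hg⟩
        obtain ⟨U', hU', hs⟩ := exists_cl hI
        exact Finset.mem_biUnion.2 ⟨U', hU', Finset.mem_filter.2 ⟨hKT, hs.trans hUK⟩⟩
    refine (Finset.card_le_card hsub).trans ((Finset.card_union_le _ _).trans ?_)
    unfold Lam
    refine Nat.add_le_add hL' ?_
    refine (Finset.card_biUnion_le_card_mul _ _ Q fun U hU => ?_).trans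
      (Nat.mul_le_mul_right _ (cl_card hr f))
    apply hQ
    have h1 := cl_ne_one hU
    have h2 : U.card ≠ 0 := by
      intro h2
      rw [Finset.card_eq_zero] at h2
      rw [h2] at hU
      exact h0 hU
    omega

/-- the dichotomy, as an inequality of averages -/
theorem dich_sum (C : Net (Sym2 V)) {E : Finset (Sym2 V)} (hE : ∀ p ∈ E, ¬ p.IsDiag)
    (u : Sym2 V → Bool) {T : Finset (Finset V)} (hT : ∀ K ∈ T, K.card = κ + 1) (hκ : 2 ≤ κ)
    {r Q : ℕ} (hr : 2 * N1 κ r ≤ 2 ^ r)
    (hQ : ∀ U : Finset V, 2 ≤ U.card → (T.filter fun K => U ⊆ K).card ≤ Q) :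
    (∑ K ∈ T, ind (C.eval (inw E u (zK K)) = true)) * Fintype.card (V → Fin κ) ≤
      T.card * ∑ g : V → Fin κ, (ind (C.eval (inw E u (kc g)) = true) +
        ind (C.Changed (inw E u fun _ => false) (inw E u (kc g)))) +
      ((C.s + 1) * m0 κ r / 2 ^ r * T.card + Lam κ r Q C) * Fintype.card (V → Fin κ) := by
  classical
  set N : ℝ := ((Fintype.card (V → Fin κ) : ℕ) : ℝ) with hN
  have hN0 : 0 ≤ N := Nat.cast_nonneg _
  have hT0 : (0 : ℝ) ≤ T.card := Nat.cast_nonneg _
  have hle : ∑ K ∈ T, ind (C.eval (inw E u (zK K)) = true) ≤ T.card := by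
    calc ∑ K ∈ T, ind (C.eval (inw E u (zK K)) = true) ≤ ∑ K ∈ T, (1 : ℝ) :=
          Finset.sum_le_sum fun K _ => ind_le _
      _ = T.card := by simp
  have hG0 : ∀ g : V → Fin κ, 0 ≤ ind (C.eval (inw E u (kc g)) = true) +
        ind (C.Changed (inw E u fun _ => false) (inw E u (kc g))) :=
    fun g => add_nonneg (ind_nonneg _) (ind_nonneg _)
  have hm0 : (0 : ℝ) ≤ m0 κ r := Nat.cast_nonneg _
  have h2r : (0 : ℝ) < 2 ^ r := by positivity
  rcases dich C hE u hT hκ hr hQ with ⟨R, hR, hg⟩ | h
  · have h1 : N - R.card ≤ ∑ g : V → Fin κ,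
        (ind (C.eval (inw E u (kc g)) = true) +
        ind (C.Changed (inw E u fun _ => false) (inw E u (kc g)))) := by
      have h2 : ∑ g ∈ (univ \ R : Finset (V → Fin κ)), (1 : ℝ) ≤ ∑ g : V → Fin κ,
          (ind (C.eval (inw E u (kc g)) = true) +
          ind (C.Changed (inw E u fun _ => false) (inw E u (kc g)))) := by
        refine le_trans (Finset.sum_le_sum (f := fun _ => (1 : ℝ))
          (g := fun g => ind (C.eval (inw E u (kc g)) = true) +
          ind (C.Changed (inw E u fun _ => false) (inw E u (kc g))))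
          fun g hgR => ?_) (Finset.sum_le_sum_of_subset_of_nonneg (Finset.sdiff_subset)
            fun g _ _ => hG0 g)
        have hgR' := (Finset.mem_sdiff.1 hgR).2
        rcases hg g hgR' with h | h
        · have := ind_nonneg (C.Changed (inw E u fun _ => false)
            (inw E u (kc g)))
          rw [ind_pos h]
          linarith
        · have := ind_nonneg (C.eval (inw E u (kc g)) = true)
          rw [ind_pos h]
          linarith
      have h3 : ∑ g ∈ (univ \ R : Finset (V → Fin κ)), (1 : ℝ) = N - R.card := by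
        rw [Finset.sum_const, nsmul_eq_mul, mul_one, Finset.card_sdiff_of_subset (Finset.subset_univ _),
          Finset.card_univ, Nat.cast_sub (Finset.card_le_univ R)]
      rw [← h3]
      exact h2
    have h4 : (R.card : ℝ) ≤ (C.s + 1) * m0 κ r / 2 ^ r * N := by
      have h5 : ((R.card * 2 ^ r : ℕ) : ℝ) ≤
          (((C.s + 1) * (m0 κ r * Fintype.card (V → Fin κ)) : ℕ) : ℝ) := by
        exact_mod_cast hR
      push_cast at h5
      rw [div_mul_eq_mul_div, le_div_iff₀ h2r]
      calc (R.card : ℝ) * 2 ^ r ≤ _ := h5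
        _ = _ := by rw [hN, Fintype.card_fun, Fintype.card_fin]; push_cast; ring
    have h7 : (0 : ℝ) ≤ Lam κ r Q C := Nat.cast_nonneg _
    calc (∑ K ∈ T, ind (C.eval (inw E u (zK K)) = true)) * N
        ≤ T.card * N := mul_le_mul_of_nonneg_right hle hN0
      _ = T.card * (N - R.card) + T.card * R.card := by ring
      _ ≤ T.card * ∑ g : V → Fin κ, (ind (C.eval (inw E u (kc g)) = true) +
            ind (C.Changed (inw E u fun _ => false) (inw E u (kc g)))) +
          T.card * ((C.s + 1) * m0 κ r / 2 ^ r * N) :=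
          add_le_add (mul_le_mul_of_nonneg_left h1 hT0) (mul_le_mul_of_nonneg_left h4 hT0)
      _ ≤ _ := by
          have : (0 : ℝ) ≤ Lam κ r Q C * N := by positivity
          linarith
  · have h1 : ∑ K ∈ T, ind (C.eval (inw E u (zK K)) = true) ≤ Lam κ r Q C := by
      have h2 : ∑ K ∈ T, ind (C.eval (inw E u (zK K)) = true) =
          ((T.filter fun K => C.eval (inw E u (zK K)) = true).card : ℝ) := by
        unfold ind
        rw [← Finset.sum_boole]
        refine Finset.sum_congr rfl fun K _ => ?_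
        split_ifs <;> rfl
      rw [h2]
      exact_mod_cast h
    have h3 : 0 ≤ (T.card : ℝ) * ∑ g : V → Fin κ, (ind (C.eval (inw E u (kc g)) = true) +
        ind (C.Changed (inw E u fun _ => false) (inw E u (kc g)))) :=
      mul_nonneg hT0 (Finset.sum_nonneg fun g _ => hG0 g)
    have h5 := mul_le_mul_of_nonneg_right h1 hN0
    have h6 : 0 ≤ (C.s + 1) * m0 κ r / 2 ^ r * (T.card : ℝ) * N := by positivity
    linarith

end Pool.Agent.W2helper95.KC
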